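import Pool.Agent.Lib.MP_052029_lc.Corr

/-!
Assembly: for a random family of rectangles, the average number of pairs of rectangles
through a point is at least `n / (12000 log m)` on some input.
-/

namespace MP052029

open Finset Function

variable {n : ℕ}

/-- average over random uniquely marked intersecting pairs (sum over the marked element) -/
noncomputable def U (θ : ℝ) (Φ : (Fin n → Bool) → (Fin n → Bool) → ℝ) : ℝ :=
  Ec θ (fun c => ∑ k ∈ Iset c, ex (fun s => ex (fun x => ex (fun y =>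
    Φ (xin c (update s k true) x) (yin c (update s k false) y)))))

/-- average over random pairs -/
noncomputable def V (θ : ℝ) (Φ : (Fin n → Bool) → (Fin n → Bool) → ℝ) : ℝ :=
  Ec θ (fun c => ex (fun s => ex (fun s' => ex (fun x => ex (fun y =>
    Φ (xin c s x) (yin c s' y))))))

lemma M1_eq_U (θ : ℝ) (f g : (Fin n → Bool) → ℝ) :
    M1 θ f g = U θ (fun x y => f x * g y) := by
  unfold M1 U
  refine Ec_congr fun c => ?_
  refine Finset.sum_congr rfl fun k _ => ?_
  refine ex_congr fun s => ?_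
  unfold aF al be
  exact ex_mul_ex _ _

lemma P2_eq_V (θ : ℝ) (f g : (Fin n → Bool) → ℝ) :
    P2 θ f g = V θ (fun x y => f x * g y) := by
  unfold P2 V
  refine Ec_congr fun c => ?_
  rw [ex_mul_ex]
  refine ex_congr fun s => ?_
  refine ex_congr fun s' => ?_
  unfold al be
  exact ex_mul_ex _ _

lemma U_sum (θ : ℝ) {ι : Type*} (S : Finset ι) (Φ : ι → (Fin n → Bool) → (Fin n → Bool) → ℝ) :
    U θ (fun x y => ∑ l ∈ S, Φ l x y) = ∑ l ∈ S, U θ (Φ l) := by
  unfold U
  rw [← Ec_sum]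
  refine Ec_congr fun c => ?_
  rw [Finset.sum_comm]
  refine Finset.sum_congr rfl fun k _ => ?_
  rw [← ex_sum]; refine ex_congr fun s => ?_
  rw [← ex_sum]; refine ex_congr fun x => ?_
  rw [← ex_sum]

lemma V_sum (θ : ℝ) {ι : Type*} (S : Finset ι) (Φ : ι → (Fin n → Bool) → (Fin n → Bool) → ℝ) :
    V θ (fun x y => ∑ l ∈ S, Φ l x y) = ∑ l ∈ S, V θ (Φ l) := by
  unfold V
  rw [← Ec_sum]
  refine Ec_congr fun c => ?_
  rw [← ex_sum]; refine ex_congr fun s => ?_
  rw [← ex_sum]; refine ex_congr fun x => ?_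
  rw [← ex_sum]; refine ex_congr fun x => ?_
  rw [← ex_sum]

lemma U_mono {θ : ℝ} (h0 : 0 ≤ θ) (h1 : θ ≤ 1) {Φ Ψ : (Fin n → Bool) → (Fin n → Bool) → ℝ}
    (h : ∀ x y, (∃ i, x i = true ∧ y i = true) → Φ x y ≤ Ψ x y) : U θ Φ ≤ U θ Ψ := by
  unfold U
  refine Ec_mono h0 h1 fun c => ?_
  refine Finset.sum_le_sum fun k hk => ?_
  have hk2 : c k = 2 := (Finset.mem_filter.mp hk).2
  refine ex_mono fun s => ex_mono fun x => ex_mono fun y => h _ _ ⟨k, ?_, ?_⟩
  · unfold xin; simp [hk2]
  · unfold yin; simp [hk2]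

lemma V_le {θ : ℝ} (h0 : 0 ≤ θ) (h1 : θ ≤ 1) {Φ : (Fin n → Bool) → (Fin n → Bool) → ℝ} {C : ℝ}
    (h : ∀ x y, Φ x y ≤ C) : V θ Φ ≤ C := by
  unfold V
  have : Ec θ (fun c : Fin n → Fin 3 => ex (fun s : Fin n → Bool => ex (fun s' : Fin n → Bool =>
    ex (fun x => ex (fun y => Φ (xin c s x) (yin c s' y)))))) ≤
      Ec θ (fun _ : Fin n → Fin 3 => C) := by
    refine Ec_mono h0 h1 fun c => ?_
    have e : ex (fun _ : Fin n → Bool => ex (fun _ : Fin n → Bool => ex (fun _ : Fin n → Bool =>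
      ex (fun _ : Fin n → Bool => C)))) = C := by simp only [ex_const]
    rw [← e]
    exact ex_mono fun s => ex_mono fun s' => ex_mono fun x => ex_mono fun y => h _ _
  rwa [Ec_const] at this

lemma U_lin (θ a b : ℝ) (Φ : (Fin n → Bool) → (Fin n → Bool) → ℝ) :
    U θ (fun x y => a * Φ x y + b) = a * U θ Φ + b * (θ * n) := by
  unfold U
  rw [← Ec_card (n := n) θ, ← Ec_mul_left, ← Ec_mul_left, ← Ec_add]
  refine Ec_congr fun c => ?_
  rw [mul_comm b, ← nsmul_eq_mul, ← Finset.sum_const, Finset.mul_sum, ← Finset.sum_add_distrib]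
  refine Finset.sum_congr rfl fun k _ => ?_
  have e1 : ∀ s x : Fin n → Bool, ex (fun y => a * Φ (xin c (update s k true) x)
      (yin c (update s k false) y) + b) =
      a * ex (fun y => Φ (xin c (update s k true) x) (yin c (update s k false) y)) + b := by
    intro s x
    rw [ex_add, ex_mul_left, ex_const]
  have e2 : ∀ s : Fin n → Bool, ex (fun x => ex (fun y => a * Φ (xin c (update s k true) x)
      (yin c (update s k false) y) + b)) =
      a * ex (fun x => ex (fun y => Φ (xin c (update s k true) x)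
        (yin c (update s k false) y))) + b := by
    intro s
    rw [ex_congr (e1 s), ex_add, ex_mul_left, ex_const]
  rw [ex_congr e2, ex_add, ex_mul_left, ex_const]

section

variable {m : ℕ} {Ω : Type*} [Fintype Ω]

/-- number of rectangles through a point -/
noncomputable def Nn (f g : Fin m → (Fin n → Bool) → ℝ) (x y : Fin n → Bool) : ℝ :=
  ∑ i, f i x * g i y

/-- Alice's side of the intersection of two rectangles -/
noncomputable def PF (f : Fin m → (Fin n → Bool) → ℝ) (l : Fin m × Fin m) (x : Fin n → Bool) : ℝ :=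
  if l.1 = l.2 then 0 else f l.1 x * f l.2 x

/-- Bob's side of the intersection of two rectangles -/
noncomputable def PG (g : Fin m → (Fin n → Bool) → ℝ) (l : Fin m × Fin m) (y : Fin n → Bool) : ℝ :=
  g l.1 y * g l.2 y

lemma sum_PF_PG {f g : Fin m → (Fin n → Bool) → ℝ}
    (hf : ∀ i x, f i x = 0 ∨ f i x = 1) (hg : ∀ i x, g i x = 0 ∨ g i x = 1)
    (x y : Fin n → Bool) :
    ∑ l : Fin m × Fin m, PF f l x * PG g l y = Nn f g x y * (Nn f g x y - 1) := by
  rw [Fintype.sum_prod_type]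
  have hsq : ∀ i, (f i x * g i y) * (f i x * g i y) = f i x * g i y := by
    intro i
    rcases hf i x with h | h <;> rcases hg i y with h' | h' <;> simp [h, h']
  have : ∀ i, ∑ j, PF f (i, j) x * PG g (i, j) y =
      (f i x * g i y) * Nn f g x y - f i x * g i y := by
    intro i
    have e : ∀ j, PF f (i, j) x * PG g (i, j) y = (f i x * g i y) * (f j x * g j y) -
        (if i = j then (f i x * g i y) * (f j x * g j y) else 0) := by
      intro j
      unfold PF PG
      by_cases h : i = j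
      · simp [h]
      · simp [h]; ring
    rw [Finset.sum_congr rfl fun j _ => e j, Finset.sum_sub_distrib, ← Finset.mul_sum,
      Finset.sum_ite_eq]
    simp only [Finset.mem_univ, if_true]
    rw [hsq]
    rfl
  rw [Finset.sum_congr rfl fun i _ => this i, Finset.sum_sub_distrib, ← Finset.sum_mul]
  unfold Nn
  ring

lemma PF_PG_zero {f g : Fin m → (Fin n → Bool) → ℝ}
    (hf : ∀ i x, f i x = 0 ∨ f i x = 1) (hg : ∀ i x, g i x = 0 ∨ g i x = 1)
    {x y : Fin n → Bool} (h1 : Nn f g x y = 1) (l : Fin m × Fin m) :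
    PF f l x * PG g l y = 0 := by
  have hs := sum_PF_PG hf hg x y
  rw [h1, sub_self, mul_zero] at hs
  have hn : ∀ l ∈ (Finset.univ : Finset (Fin m × Fin m)), 0 ≤ PF f l x * PG g l y := by
    intro l _
    unfold PF PG
    refine mul_nonneg ?_ ?_
    · split_ifs
      · exact le_rfl
      · rcases hf l.1 x with h | h <;> rcases hf l.2 x with h' | h' <;> simp [h, h']
    · rcases hg l.1 y with h | h <;> rcases hg l.2 y with h' | h' <;> simp [h, h']
  exact (Finset.sum_eq_zero_iff_of_nonneg hn).mp hs l (Finset.mem_univ l)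

/-- the bound with the parameter `θ` -/
theorem family_theta [Nonempty Ω] (f g : Ω → Fin m → (Fin n → Bool) → ℝ)
    (hf : ∀ ω i x, f ω i x = 0 ∨ f ω i x = 1) (hg : ∀ ω i x, g ω i x = 0 ∨ g ω i x = 1)
    (h1 : ∀ ω x y, (∀ i, ¬ (x i = true ∧ y i = true)) → Nn (f ω) (g ω) x y = 1)
    (h0 : ∀ x y, (∃ i, x i = true ∧ y i = true) →
      2 * ((Finset.univ.filter fun ω => Nn (f ω) (g ω) x y ≠ 0).card : ℝ) ≤ Fintype.card Ω)
    {K : ℝ} (hK : ∀ x y, ∑ ω, Nn (f ω) (g ω) x y * (Nn (f ω) (g ω) x y - 1) ≤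
      K * Fintype.card Ω) (hm : 1 ≤ m)
    {θ d : ℝ} (hθ : 0 < θ) (h2 : θ ≤ 1 / 2) (hd : 384 * (θ * d) ≤ 1) (hd0 : 0 ≤ d) :
    (3 / 4) * (θ * n) - 1152 * θ * (Real.log m + Real.exp (-1)) ≤
      8 * K + 384 * θ * ((m : ℝ) ^ 2 * Real.exp (-(d + 1))) * (θ * n) := by
  have hW : (0 : ℝ) < Fintype.card Ω := by exact_mod_cast Fintype.card_pos
  have hfn : ∀ ω i x, 0 ≤ f ω i x := fun ω i x => by rcases hf ω i x with h | h <;> simp [h]
  have hgn : ∀ ω i x, 0 ≤ g ω i x := fun ω i x => by rcases hg ω i x with h | h <;> simp [h]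
  have hf1 : ∀ ω i x, f ω i x ≤ 1 := fun ω i x => by rcases hf ω i x with h | h <;> simp [h]
  have hg1 : ∀ ω i x, g ω i x ≤ 1 := fun ω i x => by rcases hg ω i x with h | h <;> simp [h]
  -- corruption, for every ω
  have c1 : ∀ ω, θ * n * (11 / 12) - 384 * θ * (Real.log m + Real.exp (-1)) ≤
      U θ (fun x y => Nn (f ω) (g ω) x y) := by
    intro ω
    have h := corr (f ω) (g ω) (hfn ω) (hgn ω) (hf1 ω) (hg1 ω)
      (fun x y hxy => h1 ω x y hxy) (θ := θ) (ε := 1 / 12) (d := Real.log m) hθ.le h2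
      (by norm_num)
    have e : (Fintype.card (Fin m) : ℝ) * Real.exp (-(Real.log m + 1)) = Real.exp (-1) := by
      rw [Fintype.card_fin, neg_add, Real.exp_add, Real.exp_neg (Real.log m),
        Real.exp_log (by exact_mod_cast hm)]
      have : (m : ℝ) ≠ 0 := by exact_mod_cast (show m ≠ 0 by omega)
      field_simp
    rw [e] at h
    have e2 : ∑ l, M1 θ (f ω l) (g ω l) = U θ (fun x y => Nn (f ω) (g ω) x y) := by
      unfold Nn
      rw [U_sum]
      exact Finset.sum_congr rfl fun l _ => M1_eq_U θ _ _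
    rw [e2] at h
    linarith
  have c2 : (Fintype.card Ω : ℝ) * (θ * n * (11 / 12) -
      384 * θ * (Real.log m + Real.exp (-1))) ≤
      U θ (fun x y => ∑ ω, Nn (f ω) (g ω) x y) := by
    rw [U_sum, ← nsmul_eq_mul, ← Finset.card_univ, ← Finset.sum_const]
    exact Finset.sum_le_sum fun ω _ => c1 ω
  -- second moment on intersecting pairs
  have c3 : 3 * U θ (fun x y => ∑ ω, Nn (f ω) (g ω) x y) +
      (-(2 * (Fintype.card Ω : ℝ))) * (θ * n) ≤
      U θ (fun x y => ∑ ω, Nn (f ω) (g ω) x y * (Nn (f ω) (g ω) x y - 1)) := by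
    rw [← U_lin]
    refine U_mono hθ.le (by linarith) fun x y hxy => ?_
    have hh := h0 x y hxy
    have p : ∀ ω, 3 * Nn (f ω) (g ω) x y - 4 * (if Nn (f ω) (g ω) x y ≠ 0 then (1 : ℝ) else 0) ≤
        Nn (f ω) (g ω) x y * (Nn (f ω) (g ω) x y - 1) := by
      intro ω
      split_ifs with hz
      · nlinarith [sq_nonneg (Nn (f ω) (g ω) x y - 2)]
      · have : Nn (f ω) (g ω) x y = 0 := by simpa using hz
        rw [this]; norm_num
    have q := Finset.sum_le_sum fun ω (_ : ω ∈ Finset.univ) => p ω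
    rw [Finset.sum_sub_distrib, ← Finset.mul_sum, ← Finset.mul_sum, Finset.sum_boole] at q
    linarith
  -- pairs of rectangles
  have c4 : U θ (fun x y => ∑ ω, Nn (f ω) (g ω) x y * (Nn (f ω) (g ω) x y - 1)) ≤
      8 * V θ (fun x y => ∑ ω, Nn (f ω) (g ω) x y * (Nn (f ω) (g ω) x y - 1)) +
      (Fintype.card Ω : ℝ) * ((m : ℝ) ^ 2 * (384 * θ * (Real.exp (-(d + 1)) * (θ * n)))) := by
    have eU : U θ (fun x y => ∑ ω, Nn (f ω) (g ω) x y * (Nn (f ω) (g ω) x y - 1)) =
        ∑ ω, ∑ l, M1 θ (PF (f ω) l) (PG (g ω) l) := by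
      rw [U_sum]
      refine Finset.sum_congr rfl fun ω _ => ?_
      have : (fun x y => Nn (f ω) (g ω) x y * (Nn (f ω) (g ω) x y - 1)) =
          fun x y => ∑ l : Fin m × Fin m, PF (f ω) l x * PG (g ω) l y := by
        funext x y
        exact (sum_PF_PG (hf ω) (hg ω) x y).symm
      rw [this, U_sum]
      exact Finset.sum_congr rfl fun l _ => (M1_eq_U θ _ _).symm
    have eV : V θ (fun x y => ∑ ω, Nn (f ω) (g ω) x y * (Nn (f ω) (g ω) x y - 1)) =
        ∑ ω, ∑ l, P2 θ (PF (f ω) l) (PG (g ω) l) := by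
      rw [V_sum]
      refine Finset.sum_congr rfl fun ω _ => ?_
      have : (fun x y => Nn (f ω) (g ω) x y * (Nn (f ω) (g ω) x y - 1)) =
          fun x y => ∑ l : Fin m × Fin m, PF (f ω) l x * PG (g ω) l y := by
        funext x y
        exact (sum_PF_PG (hf ω) (hg ω) x y).symm
      rw [this, V_sum]
      exact Finset.sum_congr rfl fun l _ => (P2_eq_V θ _ _).symm
    rw [eU, eV]
    have r : ∀ ω l, M1 θ (PF (f ω) l) (PG (g ω) l) ≤ 8 * P2 θ (PF (f ω) l) (PG (g ω) l) +
        384 * θ * (Real.exp (-(d + 1)) * (θ * n)) := by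
      intro ω l
      refine rect_main ?_ ?_ ?_ ?_ ?_ hθ h2 hd hd0
      · intro s
        unfold PF
        split_ifs
        · exact le_rfl
        · exact mul_nonneg (hfn _ _ _) (hfn _ _ _)
      · intro s
        exact mul_nonneg (hgn _ _ _) (hgn _ _ _)
      · intro s
        unfold PF
        split_ifs
        · norm_num
        · exact mul_le_one₀ (hf1 _ _ _) (hfn _ _ _) (hf1 _ _ _)
      · intro s
        exact mul_le_one₀ (hg1 _ _ _) (hgn _ _ _) (hg1 _ _ _)
      · intro x y hxy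
        exact PF_PG_zero (hf ω) (hg ω) (h1 ω x y hxy) l
    have t := Finset.sum_le_sum fun ω (_ : ω ∈ (Finset.univ : Finset Ω)) =>
      Finset.sum_le_sum fun l (_ : l ∈ (Finset.univ : Finset (Fin m × Fin m))) => r ω l
    refine t.trans (le_of_eq ?_)
    simp only [Finset.sum_add_distrib, ← Finset.mul_sum, Finset.sum_const, Finset.card_univ,
      Fintype.card_prod, Fintype.card_fin, nsmul_eq_mul]
    push_cast
    ring
  have c5 : V θ (fun x y => ∑ ω, Nn (f ω) (g ω) x y * (Nn (f ω) (g ω) x y - 1)) ≤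
      K * Fintype.card Ω := V_le hθ.le (by linarith) hK
  -- divide by card Ω
  have key : (Fintype.card Ω : ℝ) * ((3 / 4) * (θ * n) -
      1152 * θ * (Real.log m + Real.exp (-1))) ≤ (Fintype.card Ω : ℝ) *
      (8 * K + 384 * θ * ((m : ℝ) ^ 2 * Real.exp (-(d + 1))) * (θ * n)) := by
    nlinarith [c2, c3, c4, c5]
  exact le_of_mul_le_mul_left key hW

/-- the bound for a family of rectangles, at least two of them -/
theorem family_two [Nonempty Ω] (f g : Ω → Fin m → (Fin n → Bool) → ℝ)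
    (hf : ∀ ω i x, f ω i x = 0 ∨ f ω i x = 1) (hg : ∀ ω i x, g ω i x = 0 ∨ g ω i x = 1)
    (h1 : ∀ ω x y, (∀ i, ¬ (x i = true ∧ y i = true)) → Nn (f ω) (g ω) x y = 1)
    (h0 : ∀ x y, (∃ i, x i = true ∧ y i = true) →
      2 * ((Finset.univ.filter fun ω => Nn (f ω) (g ω) x y ≠ 0).card : ℝ) ≤ Fintype.card Ω)
    {K : ℝ} (hK1 : 1 ≤ K) (hK : ∀ x y, ∑ ω, Nn (f ω) (g ω) x y * (Nn (f ω) (g ω) x y - 1) ≤
      K * Fintype.card Ω) (hm : 2 ≤ m) :
    (n : ℝ) ≤ 12000 * K * Nat.clog 2 m := by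
  set L : ℝ := Real.log m with hL
  have hl2 := Real.log_two_gt_d9
  have hl2' := Real.log_two_lt_d9
  have hm2 : (2 : ℝ) ≤ m := by exact_mod_cast hm
  have hLl : Real.log 2 ≤ L := Real.log_le_log (by norm_num) hm2
  have hLpos : 0 < L := by linarith
  have hLc : L ≤ Nat.clog 2 m * Real.log 2 := by
    have h : m ≤ 2 ^ Nat.clog 2 m := Nat.le_pow_clog (by norm_num) m
    have h' : (m : ℝ) ≤ (2 : ℝ) ^ Nat.clog 2 m := by exact_mod_cast h
    have := Real.log_le_log (by linarith : (0 : ℝ) < m) h'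
    rwa [Real.log_pow] at this
  have hE := Real.exp_neg_one_lt_d9
  have hE0 : 0 < Real.exp (-1) := Real.exp_pos _
  have hθ : 0 < 1 / (768 * L) := by positivity
  have hθ2 : 1 / (768 * L) ≤ 1 / 2 := by
    rw [div_le_div_iff₀ (by positivity) (by norm_num)]
    linarith
  have hd : 384 * (1 / (768 * L) * (2 * L)) ≤ 1 := by
    have : 384 * (1 / (768 * L) * (2 * L)) = 1 := by field_simp; norm_num
    linarith
  have h := family_theta f g hf hg h1 h0 hK (by omega) hθ hθ2 hd (by positivity)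
  have e : (m : ℝ) ^ 2 * Real.exp (-(2 * L + 1)) = Real.exp (-1) := by
    have : Real.exp (-(2 * L + 1)) = Real.exp (-1) * (Real.exp (-L) * Real.exp (-L)) := by
      rw [← Real.exp_add, ← Real.exp_add]; congr 1; ring
    rw [this, Real.exp_neg L, hL, Real.exp_log (by linarith)]
    have : (m : ℝ) ≠ 0 := by linarith
    field_simp
  rw [e, ← hL] at h
  have h3 := mul_le_mul_of_nonneg_left h (show 0 ≤ 768 * L by positivity)
  have e1 : 768 * L * (3 / 4 * (1 / (768 * L) * n) - 1152 * (1 / (768 * L)) *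
      (L + Real.exp (-1))) = 3 / 4 * n - 1152 * (L + Real.exp (-1)) := by
    field_simp
  have e2 : 768 * L * (8 * K + 384 * (1 / (768 * L)) * Real.exp (-1) * (1 / (768 * L) * n)) =
      6144 * K * L + Real.exp (-1) * n / (2 * L) := by
    field_simp
    ring
  rw [e1, e2] at h3
  have hn0 : (0 : ℝ) ≤ n := Nat.cast_nonneg n
  have b1 : Real.exp (-1) * n / (2 * L) ≤ 0.2654 * n := by
    rw [div_le_iff₀ (by positivity)]
    nlinarith
  have b2 : 1152 * (L + Real.exp (-1)) ≤ 1764 * L := by nlinarith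
  have b3 : 1764 * L ≤ 1764 * (K * L) := by nlinarith
  have b4 : (0.4846 : ℝ) * n ≤ 7908 * (K * L) := by nlinarith
  have b5 : K * L ≤ K * (Nat.clog 2 m * Real.log 2) :=
    mul_le_mul_of_nonneg_left hLc (by linarith)
  have hc0 : (0 : ℝ) ≤ K * Nat.clog 2 m := by positivity
  nlinarith

/-- the bound for a family of rectangles -/
theorem family_bound [Nonempty Ω] (f g : Ω → Fin m → (Fin n → Bool) → ℝ)
    (hf : ∀ ω i x, f ω i x = 0 ∨ f ω i x = 1) (hg : ∀ ω i x, g ω i x = 0 ∨ g ω i x = 1)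
    (h1 : ∀ ω x y, (∀ i, ¬ (x i = true ∧ y i = true)) → Nn (f ω) (g ω) x y = 1)
    (h0 : ∀ x y, (∃ i, x i = true ∧ y i = true) →
      2 * ((Finset.univ.filter fun ω => Nn (f ω) (g ω) x y ≠ 0).card : ℝ) ≤ Fintype.card Ω)
    {K : ℝ} (hK1 : 1 ≤ K) (hK : ∀ x y, ∑ ω, Nn (f ω) (g ω) x y * (Nn (f ω) (g ω) x y - 1) ≤
      K * Fintype.card Ω) :
    (n : ℝ) ≤ 12000 * K * Nat.clog 2 m := by
  rcases Nat.lt_or_ge m 2 with hm | hm
  · rcases Nat.eq_zero_or_pos n with hn | hn
    · subst hn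
      have hK0 : 0 ≤ K := by linarith
      rw [Nat.cast_zero]
      positivity
    · exfalso
      have ω0 : Ω := Classical.arbitrary Ω
      have hd0 : ∀ x : Fin n → Bool, ∀ i, ¬ (x i = true ∧ (fun _ => false : Fin n → Bool) i = true) :=
        fun x i => by simp
      have hd1 : ∀ x : Fin n → Bool, ∀ i, ¬ ((fun _ => false : Fin n → Bool) i = true ∧ x i = true) :=
        fun x i => by simp
      have hall : ∀ ω, Nn (f ω) (g ω) (fun _ => true) (fun _ => true) ≠ 0 := by
        intro ω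
        have a := h1 ω (fun _ => true) (fun _ => false) (hd0 _)
        have b := h1 ω (fun _ => false) (fun _ => true) (hd1 _)
        interval_cases m
        · simp [Nn] at a
        · simp only [Nn, Finset.univ_unique, Fin.default_eq_zero, Finset.sum_singleton] at a b ⊢
          rcases hf ω 0 (fun _ => true) with h | h
          · rw [h] at a; simp at a
          · rcases hg ω 0 (fun _ => true) with h' | h'
            · rw [h'] at b; simp at b
            · rw [h, h']; norm_num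
      have hh := h0 (fun _ => true) (fun _ => true) ⟨⟨0, hn⟩, rfl, rfl⟩
      rw [Finset.filter_true_of_mem fun ω _ => hall ω, Finset.card_univ] at hh
      have : (0 : ℝ) < Fintype.card Ω := by exact_mod_cast Fintype.card_pos
      linarith
  · exact family_two f g hf hg h1 h0 hK1 hK hm

end

end MP052029
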