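import Pool.Agent.Lib.MP_052029_lc.Defs
import Pool.Agent.Lib.MP_052029_lc.Final

/-!
From protocols to families of rectangles.
-/

namespace MP052029

open Finset

namespace Protocol

variable {n : ℕ} (P : Protocol n)

open Classical in
/-- Alice's sides, useful rectangles only -/
noncomputable def fA (ω : P.R × P.Q) (i : Fin P.m) (x : Fin n → Bool) : ℝ :=
  if P.Useful i ∧ (x, ω.1) ∈ P.A i then 1 else 0

open Classical in
/-- Bob's sides -/
noncomputable def gB (ω : P.R × P.Q) (i : Fin P.m) (y : Fin n → Bool) : ℝ :=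
  if (y, ω.2) ∈ P.B i then 1 else 0

open Classical in
lemma load_eq (x y : Fin n → Bool) (r : P.R) (q : P.Q) :
    P.load x y r q = (univ.filter fun i => P.Useful i ∧ P.Hit x y r q i).card := by
  unfold load
  rw [← Set.ncard_coe_finset]
  congr 1
  ext i
  simp

open Classical in
lemma Nn_eq_load (x y : Fin n → Bool) (ω : P.R × P.Q) :
    Nn (P.fA ω) (P.gB ω) x y = (P.load x y ω.1 ω.2 : ℝ) := by
  rw [load_eq, Finset.card_filter]
  unfold Nn fA gB
  push_cast
  refine Finset.sum_congr rfl fun i _ => ?_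
  unfold Hit
  by_cases h1 : P.Useful i <;> by_cases h2 : (x, ω.1) ∈ P.A i <;>
    by_cases h3 : (y, ω.2) ∈ P.B i <;> simp [h1, h2, h3]

lemma card_pos : (0 : ℝ) < Fintype.card P.R * Fintype.card P.Q := by
  have h1 : (0 : ℝ) < Fintype.card P.R := by exact_mod_cast Fintype.card_pos
  have h2 : (0 : ℝ) < Fintype.card P.Q := by exact_mod_cast Fintype.card_pos
  positivity

lemma sum_eq_avg (F : P.R → P.Q → ℝ) :
    ∑ ω : P.R × P.Q, F ω.1 ω.2 = P.avg F * Fintype.card (P.R × P.Q) := by
  have h := P.card_pos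
  unfold avg
  rw [Fintype.sum_prod_type, Fintype.card_prod]
  push_cast
  field_simp

variable {P}

lemma exists_hit (hc : P.Computes) {x y : Fin n → Bool} (h : Disj x y) (r : P.R) (q : P.Q) :
    ∃ i, P.Hit x y r q i := by
  classical
  have h1 := (hc x y).1 h
  unfold accept at h1
  by_contra hcon
  have e := P.sum_eq_avg (fun r q => if ∃ i, P.Hit x y r q i then (1 : ℝ) else 0)
  have e2 : ∑ ω : P.R × P.Q, (if ∃ i, P.Hit x y ω.1 ω.2 i then (1 : ℝ) else 0) <
      ∑ ω : P.R × P.Q, (1 : ℝ) := by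
    refine Finset.sum_lt_sum (fun ω _ => by split_ifs <;> norm_num) ⟨(r, q), Finset.mem_univ _, ?_⟩
    rw [if_neg hcon]
    norm_num
  rw [Finset.sum_const, Finset.card_univ, nsmul_eq_mul, mul_one] at e2
  have e3 : P.avg (fun r q => if ∃ i, P.Hit x y r q i then (1 : ℝ) else 0) = 1 := by
    convert h1
  rw [e3, one_mul] at e
  exact absurd e (ne_of_lt e2)

lemma load_disj (hc : P.Computes) (hu : P.Unambiguous) {x y : Fin n → Bool} (h : Disj x y)
    (r : P.R) (q : P.Q) : P.load x y r q = 1 := by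
  obtain ⟨i, hi⟩ := exists_hit hc h r q
  unfold load
  rw [Set.ncard_eq_one]
  refine ⟨i, ?_⟩
  ext j
  simp only [Set.mem_ofPred_eq, Set.mem_singleton_iff]
  constructor
  · rintro ⟨_, hj⟩
    exact hu x y h r q j i hj hi
  · rintro rfl
    exact ⟨⟨x, y, r, q, h, hi⟩, hi⟩

theorem tradeoff (hc : P.Computes) (hu : P.Unambiguous) {K : ℝ} (hK1 : 1 ≤ K)
    (hK : ∀ x y, P.pairs x y ≤ K) : (n : ℝ) ≤ 12000 * K * P.cost := by
  classical
  refine family_bound (Ω := P.R × P.Q) P.fA P.gB ?_ ?_ ?_ ?_ hK1 ?_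
  · intro ω i x
    unfold fA
    split_ifs <;> simp
  · intro ω i x
    unfold gB
    split_ifs <;> simp
  · intro ω x y hxy
    rw [Nn_eq_load, load_disj hc hu (fun ⟨i, hi⟩ => hxy i hi)]
    simp
  · intro x y hxy
    have h1 := (hc x y).2 (fun h => h hxy)
    have hle : ((Finset.univ.filter fun ω => Nn (P.fA ω) (P.gB ω) x y ≠ 0).card : ℝ) ≤
        ∑ ω : P.R × P.Q, (if ∃ i, P.Hit x y ω.1 ω.2 i then (1 : ℝ) else 0) := by
      rw [Finset.card_filter]
      push_cast
      refine Finset.sum_le_sum fun ω _ => ?_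
      by_cases hh : ∃ i, P.Hit x y ω.1 ω.2 i
      · rw [if_pos hh]; split_ifs <;> norm_num
      · rw [if_neg hh, if_neg]
        rw [Nn_eq_load, not_not]
        have : P.load x y ω.1 ω.2 = 0 := by
          unfold load
          rw [Set.ncard_eq_zero]
          ext i
          simp only [Set.mem_ofPred_eq, Set.mem_empty_iff_false, iff_false]
          rintro ⟨_, hi⟩
          exact hh ⟨i, hi⟩
        rw [this]; simp
    have e := P.sum_eq_avg (fun r q => if ∃ i, P.Hit x y r q i then (1 : ℝ) else 0)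
    have e3 : P.avg (fun r q => if ∃ i, P.Hit x y r q i then (1 : ℝ) else 0) ≤ 1 / 2 := by
      unfold accept at h1
      convert h1
    have hcard : (0 : ℝ) < Fintype.card (P.R × P.Q) := by exact_mod_cast Fintype.card_pos
    rw [e] at hle
    nlinarith
  · intro x y
    have e := P.sum_eq_avg (fun r q => (P.load x y r q : ℝ) * ((P.load x y r q : ℝ) - 1))
    have e2 : ∑ ω : P.R × P.Q, Nn (P.fA ω) (P.gB ω) x y * (Nn (P.fA ω) (P.gB ω) x y - 1) =
        ∑ ω : P.R × P.Q, (P.load x y ω.1 ω.2 : ℝ) * ((P.load x y ω.1 ω.2 : ℝ) - 1) := by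
      refine Finset.sum_congr rfl fun ω _ => ?_
      rw [Nn_eq_load]
    rw [e2, e]
    exact mul_le_mul_of_nonneg_right (hK x y) (Nat.cast_nonneg _)

end Protocol

end MP052029
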