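import Pool.Agent.Lib.MP_052029_lc.Rect

/-!
The corruption inequality: if the rectangles cover every disjoint pair exactly once, then on
average they cover the uniquely intersecting pairs almost once.
-/

namespace MP052029

open Finset Function

variable {n : ℕ}

/-- Alice's mass with coordinate `k` overwritten by `b` -/
noncomputable def AK (f : (Fin n → Bool) → ℝ) (c : Fin n → Fin 3) (σ : Fin n → Bool)
    (k : Fin n) (b : Bool) : ℝ :=
  ex (fun x => f (update (xin c σ x) k b))

/-- Bob's mass with coordinate `k` overwritten by `b` -/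
noncomputable def BK (g : (Fin n → Bool) → ℝ) (c : Fin n → Fin 3) (σ : Fin n → Bool)
    (k : Fin n) (b : Bool) : ℝ :=
  ex (fun y => g (update (yin c σ y) k b))

lemma AK_ctx (f : (Fin n → Bool) → ℝ) (c : Fin n → Fin 3) (σ : Fin n → Bool) (k : Fin n)
    (a : Fin 3) (b : Bool) : AK f (update c k a) σ k b = AK f c σ k b := by
  unfold AK
  refine ex_congr fun x => ?_
  congr 1
  funext i
  by_cases hi : i = k
  · subst hi; simp
  · rw [update_of_ne hi, update_of_ne hi]
    unfold xin
    rw [update_of_ne hi]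

lemma BK_ctx (f : (Fin n → Bool) → ℝ) (c : Fin n → Fin 3) (σ : Fin n → Bool) (k : Fin n)
    (a : Fin 3) (b : Bool) : BK f (update c k a) σ k b = BK f c σ k b := by
  unfold BK
  refine ex_congr fun x => ?_
  congr 1
  funext i
  by_cases hi : i = k
  · subst hi; simp
  · rw [update_of_ne hi, update_of_ne hi]
    unfold yin
    rw [update_of_ne hi]

lemma aF_eq_AK (f g : (Fin n → Bool) → ℝ) (c : Fin n → Fin 3) (s : Fin n → Bool) {k : Fin n}
    (hk : c k = 2) : aF (al f c) (be g c) k s = AK f c s k true * BK g c s k true := by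
  unfold aF al be AK BK
  have h1 : ∀ x, f (xin c (update s k true) x) = f (update (xin c s x) k true) := fun x => by
    rw [xin_update c s x hk]
  have h2 : ∀ y, g (yin c (update s k false) y) = g (update (yin c s y) k true) := fun y => by
    rw [yin_update c s y hk]; rfl
  rw [ex_congr h1, ex_congr h2]

lemma M1_eq (θ : ℝ) (f g : (Fin n → Bool) → ℝ) :
    M1 θ f g = θ * ∑ k, Ec θ (fun c => ex (fun s => AK f c s k true * BK g c s k true)) := by
  unfold M1
  have h : ∀ c : Fin n → Fin 3, ∑ k ∈ Iset c, ex (aF (al f c) (be g c) k) =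
      ∑ k, if c k = 2 then ex (fun s => AK f c s k true * BK g c s k true) else 0 := by
    intro c
    rw [sum_Iset]
    refine Finset.sum_congr rfl fun k _ => ?_
    split_ifs with hk
    · exact ex_congr fun s => aF_eq_AK f g c s hk
    · rfl
  rw [Ec_congr h, Ec_sum, Finset.mul_sum]
  refine Finset.sum_congr rfl fun k _ => ?_
  rw [marginal]
  · simp [wt]
  · intro c a
    refine ex_congr fun s => ?_
    rw [AK_ctx, BK_ctx]

lemma per_l {A1 A0 B1 B0 ε : ℝ} (hA1 : 0 ≤ A1) (hA0 : 0 ≤ A0) (hB1 : 0 ≤ B1) (hB0 : 0 ≤ B0)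
    (hε : 0 < ε) :
    (1 - ε) * (A0 * B0) - (2 / ε) * (B0 * (√A1 - √A0) ^ 2 + A0 * (√B1 - √B0) ^ 2) ≤ A1 * B1 := by
  set a1 := √A1 with ha1
  set a0 := √A0 with ha0
  set b1 := √B1 with hb1
  set b0 := √B0 with hb0
  have eA1 : A1 = a1 ^ 2 := (Real.sq_sqrt hA1).symm
  have eA0 : A0 = a0 ^ 2 := (Real.sq_sqrt hA0).symm
  have eB1 : B1 = b1 ^ 2 := (Real.sq_sqrt hB1).symm
  have eB0 : B0 = b0 ^ 2 := (Real.sq_sqrt hB0).symm
  have p1 : 0 ≤ a1 := Real.sqrt_nonneg _
  have p0 : 0 ≤ a0 := Real.sqrt_nonneg _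
  have q1 : 0 ≤ b1 := Real.sqrt_nonneg _
  have q0 : 0 ≤ b0 := Real.sqrt_nonneg _
  set w := b0 * |a1 - a0| + a0 * |b1 - b0| with hw
  have hw0 : 0 ≤ w := by positivity
  have hz : a0 * b0 - w ≤ a1 * b1 := by
    rcases le_total a1 a0 with ha | ha <;> rcases le_total b1 b0 with hb | hb
    · rw [hw, abs_of_nonpos (by linarith), abs_of_nonpos (by linarith)]
      nlinarith [mul_nonneg (sub_nonneg.mpr ha) (sub_nonneg.mpr hb)]
    · rw [hw, abs_of_nonpos (by linarith), abs_of_nonneg (by linarith)]
      nlinarith [mul_nonneg p1 (sub_nonneg.mpr hb), mul_nonneg p0 (sub_nonneg.mpr hb)]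
    · rw [hw, abs_of_nonneg (by linarith), abs_of_nonpos (by linarith)]
      nlinarith [mul_nonneg q1 (sub_nonneg.mpr ha), mul_nonneg q0 (sub_nonneg.mpr ha)]
    · rw [hw, abs_of_nonneg (by linarith), abs_of_nonneg (by linarith)]
      nlinarith [mul_nonneg q0 (sub_nonneg.mpr ha), mul_nonneg p0 (sub_nonneg.mpr hb),
        mul_le_mul ha hb q0 p1]
  have hsq : (a0 * b0) ^ 2 - 2 * (a0 * b0) * w ≤ (a1 * b1) ^ 2 := by
    rcases le_total w (a0 * b0) with h | h
    · nlinarith [mul_self_le_mul_self (sub_nonneg.mpr h) hz, sq_nonneg w]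
    · nlinarith [sq_nonneg (a1 * b1), mul_nonneg p0 q0, mul_nonneg (mul_nonneg p0 q0) hw0,
        mul_nonneg (mul_nonneg p0 q0) (sub_nonneg.mpr h)]
  have hw2 : w ^ 2 ≤ 2 * (B0 * (a1 - a0) ^ 2 + A0 * (b1 - b0) ^ 2) := by
    have e1 : B0 * (a1 - a0) ^ 2 = (b0 * |a1 - a0|) ^ 2 := by
      rw [mul_pow, sq_abs, eB0]
    have e2 : A0 * (b1 - b0) ^ 2 = (a0 * |b1 - b0|) ^ 2 := by
      rw [mul_pow, sq_abs, eA0]
    rw [e1, e2, hw]
    nlinarith [sq_nonneg (b0 * |a1 - a0| - a0 * |b1 - b0|)]
  have hyoung : 2 * (a0 * b0) * w ≤ ε * (a0 * b0) ^ 2 + (1 / ε) * w ^ 2 := by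
    have : 0 ≤ (1 / ε) * (ε * (a0 * b0) - w) ^ 2 := by positivity
    have e : (1 / ε) * (ε * (a0 * b0) - w) ^ 2 =
        ε * (a0 * b0) ^ 2 - 2 * (a0 * b0) * w + (1 / ε) * w ^ 2 := by
      field_simp
      ring
    linarith
  have h3 : (1 / ε) * w ^ 2 ≤ (2 / ε) * (B0 * (a1 - a0) ^ 2 + A0 * (b1 - b0) ^ 2) := by
    have := mul_le_mul_of_nonneg_left hw2 (show 0 ≤ 1 / ε by positivity)
    calc _ ≤ _ := this
      _ = _ := by ring
  have e4 : A1 * B1 = (a1 * b1) ^ 2 := by rw [eA1, eB1]; ring
  have e5 : A0 * B0 = (a0 * b0) ^ 2 := by rw [eA0, eB0]; ring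
  rw [e4, e5]
  linarith

section

variable {f g : (Fin n → Bool) → ℝ} (hf : ∀ s, 0 ≤ f s) (hg : ∀ s, 0 ≤ g s)
  (hf1 : ∀ s, f s ≤ 1) (hg1 : ∀ s, g s ≤ 1)

/-- local term -/
noncomputable def L1 (f g : (Fin n → Bool) → ℝ) (c : Fin n → Fin 3) (k : Fin n)
    (s : Fin n → Bool) : ℝ :=
  BK g c s k false * (√(AK f c s k true) - √(AK f c s k false)) ^ 2

/-- local term -/
noncomputable def L2 (f g : (Fin n → Bool) → ℝ) (c : Fin n → Fin 3) (k : Fin n)
    (s : Fin n → Bool) : ℝ :=
  AK f c s k false * (√(BK g c s k true) - √(BK g c s k false)) ^ 2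

include hf hg hf1 in
lemma sum_L1 (c : Fin n → Fin 3) (s : Fin n → Bool) :
    ∑ k, (if c k = 0 then L1 f g c k s else 0) ≤
      4 * (be g c s * Real.negMulLog (al f c s)) := by
  have hb := budget (fun x => f (xin c s x)) (fun x => hf _) (fun x => hf1 _)
  have hB : 0 ≤ be g c s := ex_nonneg fun y => hg _
  calc _ ≤ ∑ j, be g c s *
        (√(ex (fun x => f (xin c s (update x j true)))) -
          √(ex (fun x => f (xin c s (update x j false))))) ^ 2 := by
        refine Finset.sum_le_sum fun j _ => ?_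
        split_ifs with h1
        · unfold L1
          have e1 : BK g c s j false = be g c s := by
            unfold BK be
            refine ex_congr fun y => ?_
            congr 1
            have : yin c s y j = false := by unfold yin; simp [h1]
            nth_rewrite 1 [← this]
            simp
          have e2 : ∀ b, AK f c s j b = ex (fun x => f (xin c s (update x j b))) := by
            intro b
            unfold AK
            refine ex_congr fun x => ?_
            congr 1
            funext i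
            by_cases hi : i = j
            · subst hi; unfold xin; simp [h1]
            · rw [update_of_ne hi]; unfold xin; simp [update_of_ne hi]
          rw [e1, e2, e2]
        · exact mul_nonneg hB (sq_nonneg _)
    _ ≤ _ := by
        rw [← Finset.mul_sum]
        unfold al
        nlinarith [mul_le_mul_of_nonneg_left hb hB]

include hf hg hg1 in
lemma sum_L2 (c : Fin n → Fin 3) (s : Fin n → Bool) :
    ∑ k, (if c k = 1 then L2 f g c k s else 0) ≤
      4 * (al f c s * Real.negMulLog (be g c s)) := by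
  have hb := budget (fun y => g (yin c s y)) (fun x => hg _) (fun x => hg1 _)
  have hA : 0 ≤ al f c s := ex_nonneg fun y => hf _
  calc _ ≤ ∑ j, al f c s *
        (√(ex (fun y => g (yin c s (update y j true)))) -
          √(ex (fun y => g (yin c s (update y j false))))) ^ 2 := by
        refine Finset.sum_le_sum fun j _ => ?_
        split_ifs with h1
        · unfold L2
          have e1 : AK f c s j false = al f c s := by
            unfold AK al
            refine ex_congr fun y => ?_
            congr 1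
            have : xin c s y j = false := by unfold xin; simp [h1]
            nth_rewrite 1 [← this]
            simp
          have e2 : ∀ b, BK g c s j b = ex (fun x => g (yin c s (update x j b))) := by
            intro b
            unfold BK
            refine ex_congr fun x => ?_
            congr 1
            funext i
            by_cases hi : i = j
            · subst hi; unfold yin; simp [h1]
            · rw [update_of_ne hi]; unfold yin; simp [update_of_ne hi]
          rw [e1, e2, e2]
        · exact mul_nonneg hA (sq_nonneg _)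
    _ ≤ _ := by
        rw [← Finset.mul_sum]
        unfold be
        nlinarith [mul_le_mul_of_nonneg_left hb hA]

include hf hg hf1 hg1 in
lemma sum_L {θ : ℝ} (h0 : 0 ≤ θ) (h1 : θ < 1) :
    ∑ k, Ec θ (fun c => ex (L1 f g c k) + ex (L2 f g c k)) ≤
      (8 / (1 - θ)) * Ec θ (fun c => ex (fun s => Real.negMulLog (al f c s * be g c s))) := by
  have hθ : 0 < 1 - θ := by linarith
  have t1 : ∀ k, Ec θ (fun c => ex (L1 f g c k)) =
      (2 / (1 - θ)) * Ec θ (fun c => if c k = 0 then ex (L1 f g c k) else 0) := by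
    intro k
    rw [marginal]
    · simp only [wt, Matrix.cons_val_zero]
      field_simp
    · intro c a
      have : L1 f g (update c k a) k = L1 f g c k := by
        funext s; unfold L1; rw [AK_ctx, AK_ctx, BK_ctx]
      rw [this]
  have t2 : ∀ k, Ec θ (fun c => ex (L2 f g c k)) =
      (2 / (1 - θ)) * Ec θ (fun c => if c k = 1 then ex (L2 f g c k) else 0) := by
    intro k
    rw [marginal]
    · simp only [wt, Matrix.cons_val_one, Matrix.cons_val_zero]
      field_simp
    · intro c a
      have : L2 f g (update c k a) k = L2 f g c k := by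
        funext s; unfold L2; rw [AK_ctx, BK_ctx, BK_ctx]
      rw [this]
  have e1 : ∑ k, Ec θ (fun c => ex (L1 f g c k) + ex (L2 f g c k)) =
      (2 / (1 - θ)) * Ec θ (fun c => ex (fun s => ∑ k, (if c k = 0 then L1 f g c k s else 0) +
        ∑ k, (if c k = 1 then L2 f g c k s else 0))) := by
    have : ∀ c : Fin n → Fin 3, ex (fun s => ∑ k, (if c k = 0 then L1 f g c k s else 0) +
        ∑ k, (if c k = 1 then L2 f g c k s else 0)) =
        ∑ k, ((if c k = 0 then ex (L1 f g c k) else 0) +
          (if c k = 1 then ex (L2 f g c k) else 0)) := by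
      intro c
      rw [ex_add, ex_sum, ex_sum, ← Finset.sum_add_distrib]
      refine Finset.sum_congr rfl fun k _ => ?_
      congr 1 <;> split_ifs <;> simp [ex_const]
    rw [Ec_congr this, Ec_sum, Finset.mul_sum]
    refine Finset.sum_congr rfl fun k _ => ?_
    rw [Ec_add, Ec_add, t1, t2]
    ring
  rw [e1]
  have h2 : 0 ≤ 2 / (1 - θ) := by positivity
  have h3 : Ec θ (fun c => ex (fun s => ∑ k, (if c k = 0 then L1 f g c k s else 0) +
        ∑ k, (if c k = 1 then L2 f g c k s else 0))) ≤
      4 * Ec θ (fun c => ex (fun s => Real.negMulLog (al f c s * be g c s))) := by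
    rw [← Ec_mul_left]
    refine Ec_mono h0 h1.le fun c => ?_
    rw [← ex_mul_left]
    refine ex_mono fun s => ?_
    have a1 := sum_L1 hf hg hf1 c s
    have a2 := sum_L2 hf hg hg1 c s
    rw [Real.negMulLog_mul]
    linarith
  calc _ ≤ _ := mul_le_mul_of_nonneg_left h3 h2
    _ = _ := by ring

end

lemma disj_in (c : Fin n → Fin 3) (s x y : Fin n → Bool) (i : Fin n) :
    ¬ (xin c s x i = true ∧ yin c s y i = true) := by
  unfold xin yin
  split_ifs <;> simp

lemma sum_prod_ex {ι : Type*} [Fintype ι] (f g : ι → (Fin n → Bool) → ℝ)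
    (X Y : (Fin n → Bool) → (Fin n → Bool))
    (h : ∀ x y, ∑ l, f l (X x) * g l (Y y) = 1) :
    ∑ l, ex (fun x => f l (X x)) * ex (fun y => g l (Y y)) = 1 := by
  have : ∀ l, ex (fun x => f l (X x)) * ex (fun y => g l (Y y)) =
      ex (fun x => ex (fun y => f l (X x) * g l (Y y))) := fun l => ex_mul_ex _ _
  rw [Finset.sum_congr rfl fun l _ => this l, ← ex_sum]
  have : ∀ x, ∑ l, ex (fun y => f l (X x) * g l (Y y)) = 1 := by
    intro x
    rw [← ex_sum, ex_congr (fun y => h x y), ex_const]
  rw [ex_congr this, ex_const]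

/-- the corruption inequality -/
theorem corr {ι : Type*} [Fintype ι] (f g : ι → (Fin n → Bool) → ℝ)
    (hf : ∀ l s, 0 ≤ f l s) (hg : ∀ l s, 0 ≤ g l s) (hf1 : ∀ l s, f l s ≤ 1)
    (hg1 : ∀ l s, g l s ≤ 1)
    (hsum : ∀ x y : Fin n → Bool, (∀ i, ¬ (x i = true ∧ y i = true)) → ∑ l, f l x * g l y = 1)
    {θ ε d : ℝ} (h0 : 0 ≤ θ) (h1 : θ ≤ 1 / 2) (hε : 0 < ε) :
    θ * n * (1 - ε) - (32 * θ / ε) * (d + Fintype.card ι * Real.exp (-(d + 1))) ≤
      ∑ l, M1 θ (f l) (g l) := by
  have key : ∀ (k : Fin n) (c : Fin n → Fin 3) (s : Fin n → Bool),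
      (1 - ε) - (2 / ε) * ∑ l, (L1 (f l) (g l) c k s + L2 (f l) (g l) c k s) ≤
        ∑ l, AK (f l) c s k true * BK (g l) c s k true := by
    intro k c s
    have e0 : ∑ l, AK (f l) c s k false * BK (g l) c s k false = 1 := by
      unfold AK BK
      refine sum_prod_ex f g (fun x => update (xin c s x) k false)
        (fun y => update (yin c s y) k false) fun x y => hsum _ _ fun i => ?_
      by_cases hi : i = k
      · subst hi; simp
      · rw [update_of_ne hi, update_of_ne hi]; exact disj_in c s x y i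
    have e1 : (1 - ε) - (2 / ε) * ∑ l, (L1 (f l) (g l) c k s + L2 (f l) (g l) c k s) =
        ∑ l, ((1 - ε) * (AK (f l) c s k false * BK (g l) c s k false) -
          (2 / ε) * (L1 (f l) (g l) c k s + L2 (f l) (g l) c k s)) := by
      rw [Finset.sum_sub_distrib, ← Finset.mul_sum, ← Finset.mul_sum, e0, mul_one]
    rw [e1]
    refine Finset.sum_le_sum fun l _ => ?_
    exact per_l (ex_nonneg fun x => hf l _) (ex_nonneg fun x => hf l _)
      (ex_nonneg fun x => hg l _) (ex_nonneg fun x => hg l _) hε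
  -- sum over k and average
  have s1 : θ * ∑ k : Fin n, Ec θ (fun c => ex (fun s => (1 - ε) -
      (2 / ε) * ∑ l, (L1 (f l) (g l) c k s + L2 (f l) (g l) c k s))) ≤
      ∑ l, M1 θ (f l) (g l) := by
    simp only [M1_eq]
    rw [← Finset.mul_sum, Finset.sum_comm]
    refine mul_le_mul_of_nonneg_left (Finset.sum_le_sum fun k _ => ?_) h0
    rw [← Ec_sum]
    refine Ec_mono h0 (by linarith) fun c => ?_
    rw [← ex_sum]
    exact ex_mono fun s => key k c s
  have s2 : ∑ k : Fin n, Ec θ (fun c => ex (fun s => (1 - ε) -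
      (2 / ε) * ∑ l, (L1 (f l) (g l) c k s + L2 (f l) (g l) c k s))) =
      n * (1 - ε) - (2 / ε) * ∑ l, ∑ k, Ec θ (fun c => ex (L1 (f l) (g l) c k) +
        ex (L2 (f l) (g l) c k)) := by
    rw [Finset.sum_comm, Finset.mul_sum]
    have : ∀ k : Fin n, Ec θ (fun c => ex (fun s => (1 - ε) -
      (2 / ε) * ∑ l, (L1 (f l) (g l) c k s + L2 (f l) (g l) c k s))) =
        (1 - ε) - (2 / ε) * ∑ l, Ec θ (fun c => ex (L1 (f l) (g l) c k) +
        ex (L2 (f l) (g l) c k)) := by
      intro k
      have : ∀ c : Fin n → Fin 3, ex (fun s => (1 - ε) -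
          (2 / ε) * ∑ l, (L1 (f l) (g l) c k s + L2 (f l) (g l) c k s)) =
          (1 - ε) + (-(2 / ε)) * ∑ l, (ex (L1 (f l) (g l) c k) + ex (L2 (f l) (g l) c k)) := by
        intro c
        rw [ex_sub, ex_const, ex_mul_left, ex_sum]
        have : ∀ l, ex (fun s => L1 (f l) (g l) c k s + L2 (f l) (g l) c k s) =
          ex (L1 (f l) (g l) c k) + ex (L2 (f l) (g l) c k) := fun l => ex_add _ _
        rw [Finset.sum_congr rfl fun l _ => this l]
        ring
      rw [Ec_congr this, Ec_add, Ec_const, Ec_mul_left, Ec_sum]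
      ring
    rw [Finset.sum_congr rfl fun k _ => this k, Finset.sum_sub_distrib]
    simp [Finset.mul_sum]
    ring
  have s3 : ∑ l, ∑ k, Ec θ (fun c => ex (L1 (f l) (g l) c k) + ex (L2 (f l) (g l) c k)) ≤
      16 * (d + Fintype.card ι * Real.exp (-(d + 1))) := by
    have a1 : ∀ l, ∑ k, Ec θ (fun c => ex (L1 (f l) (g l) c k) + ex (L2 (f l) (g l) c k)) ≤
        16 * Ec θ (fun c => ex (fun s => d * (al (f l) c s * be (g l) c s) +
          Real.exp (-(d + 1)))) := by
      intro l
      have b1 := sum_L (hf l) (hg l) (hf1 l) (hg1 l) h0 (show θ < 1 by linarith)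
      have b2 : Ec θ (fun c => ex (fun s => Real.negMulLog (al (f l) c s * be (g l) c s))) ≤
          Ec θ (fun c => ex (fun s => d * (al (f l) c s * be (g l) c s) +
          Real.exp (-(d + 1)))) := by
        refine Ec_mono h0 (by linarith) fun c => ex_mono fun s => ?_
        exact negMulLog_le (mul_nonneg (ex_nonneg fun x => hf l _) (ex_nonneg fun x => hg l _))
      have b3 : 0 ≤ Ec θ (fun c => ex (fun s => Real.negMulLog (al (f l) c s * be (g l) c s))) := by
        refine Ec_nonneg h0 (by linarith) fun c => ex_nonneg fun s => ?_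
        refine Real.negMulLog_nonneg
          (mul_nonneg (ex_nonneg fun x => hf l _) (ex_nonneg fun x => hg l _)) ?_
        have u1 : al (f l) c s ≤ 1 := by
          unfold al
          exact (ex_mono (G := fun _ => (1 : ℝ)) fun x => hf1 l _).trans (ex_const 1).le
        have u2 : be (g l) c s ≤ 1 := by
          unfold be
          exact (ex_mono (G := fun _ => (1 : ℝ)) fun x => hg1 l _).trans (ex_const 1).le
        exact mul_le_one₀ u1 (ex_nonneg fun x => hg l _) u2
      have b4 : 8 / (1 - θ) ≤ 16 := by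
        rw [div_le_iff₀ (by linarith)]; linarith
      calc _ ≤ _ := b1
        _ ≤ 16 * Ec θ (fun c => ex (fun s => Real.negMulLog (al (f l) c s * be (g l) c s))) :=
            mul_le_mul_of_nonneg_right b4 b3
        _ ≤ _ := by linarith
    refine (Finset.sum_le_sum fun l _ => a1 l).trans (le_of_eq ?_)
    rw [← Finset.mul_sum, ← Ec_sum]
    congr 1
    have : ∀ c : Fin n → Fin 3, ∑ l, ex (fun s => d * (al (f l) c s * be (g l) c s) +
        Real.exp (-(d + 1))) = d + Fintype.card ι * Real.exp (-(d + 1)) := by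
      intro c
      rw [← ex_sum]
      have : ∀ s : Fin n → Bool, ∑ l, (d * (al (f l) c s * be (g l) c s) +
          Real.exp (-(d + 1))) = d + Fintype.card ι * Real.exp (-(d + 1)) := by
        intro s
        rw [Finset.sum_add_distrib, ← Finset.mul_sum]
        have e := sum_prod_ex f g (fun x => xin c s x) (fun y => yin c s y)
          (fun x y => hsum _ _ fun i => disj_in c s x y i)
        unfold al be
        rw [e]
        simp
      rw [ex_congr this, ex_const]
    rw [Ec_congr this, Ec_const]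
  rw [s2] at s1
  have h5 : (2 / ε) * ∑ l, ∑ k, Ec θ (fun c => ex (L1 (f l) (g l) c k) +
        ex (L2 (f l) (g l) c k)) ≤ (2 / ε) * (16 * (d + Fintype.card ι * Real.exp (-(d + 1)))) :=
    mul_le_mul_of_nonneg_left s3 (by positivity)
  have h6 := mul_le_mul_of_nonneg_left h5 h0
  have h7 : θ * ((2 / ε) * (16 * (d + Fintype.card ι * Real.exp (-(d + 1))))) =
      (32 * θ / ε) * (d + Fintype.card ι * Real.exp (-(d + 1))) := by ring
  rw [h7] at h6
  nlinarith [s1, h6]

end MP052029
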