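import Pool.Agent.Lib.MP_052029_lc.CubeMain

/-!
Random contexts. Every coordinate is of type 0 (only Alice's bit is free), 1 (only Bob's bit
is free) or 2 (`Alice = σ, Bob = not σ`).
-/

namespace MP052029

open Finset Function

variable {n : ℕ}

/-- Alice's input -/
def xin (c : Fin n → Fin 3) (σ x : Fin n → Bool) : Fin n → Bool :=
  fun i => if c i = 0 then x i else if c i = 1 then false else σ i

/-- Bob's input -/
def yin (c : Fin n → Fin 3) (σ y : Fin n → Bool) : Fin n → Bool :=
  fun i => if c i = 0 then false else if c i = 1 then y i else !σ i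

/-- weights of the three types -/
noncomputable def wt (θ : ℝ) : Fin 3 → ℝ := ![(1 - θ) / 2, (1 - θ) / 2, θ]

/-- weight of a context -/
noncomputable def WT (θ : ℝ) (c : Fin n → Fin 3) : ℝ := ∏ i, wt θ (c i)

/-- expectation over contexts -/
noncomputable def Ec (θ : ℝ) (G : (Fin n → Fin 3) → ℝ) : ℝ := ∑ c, WT θ c * G c

lemma wt_sum (θ : ℝ) : ∑ a, wt θ a = 1 := by
  unfold wt
  rw [Fin.sum_univ_three]
  simp

lemma wt_nonneg {θ : ℝ} (h0 : 0 ≤ θ) (h1 : θ ≤ 1) (a : Fin 3) : 0 ≤ wt θ a := by
  unfold wt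
  fin_cases a <;> simp <;> linarith

lemma WT_nonneg {θ : ℝ} (h0 : 0 ≤ θ) (h1 : θ ≤ 1) (c : Fin n → Fin 3) : 0 ≤ WT θ c :=
  Finset.prod_nonneg fun _ _ => wt_nonneg h0 h1 _

lemma WT_sum (θ : ℝ) : ∑ c : Fin n → Fin 3, WT θ c = 1 := by
  unfold WT
  have h := Finset.prod_univ_sum (fun _ : Fin n => (Finset.univ : Finset (Fin 3)))
    (fun _ a => wt θ a)
  rw [Fintype.piFinset_univ] at h
  rw [← h, wt_sum]
  simp

lemma Ec_add (θ : ℝ) (F G : (Fin n → Fin 3) → ℝ) :
    Ec θ (fun c => F c + G c) = Ec θ F + Ec θ G := by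
  unfold Ec
  rw [← Finset.sum_add_distrib]
  exact Finset.sum_congr rfl fun c _ => by ring

lemma Ec_mul_left (θ a : ℝ) (F : (Fin n → Fin 3) → ℝ) :
    Ec θ (fun c => a * F c) = a * Ec θ F := by
  unfold Ec
  rw [Finset.mul_sum]
  exact Finset.sum_congr rfl fun c _ => by ring

lemma Ec_mono {θ : ℝ} (h0 : 0 ≤ θ) (h1 : θ ≤ 1) {F G : (Fin n → Fin 3) → ℝ}
    (h : ∀ c, F c ≤ G c) : Ec θ F ≤ Ec θ G :=
  Finset.sum_le_sum fun c _ => mul_le_mul_of_nonneg_left (h c) (WT_nonneg h0 h1 c)

lemma Ec_nonneg {θ : ℝ} (h0 : 0 ≤ θ) (h1 : θ ≤ 1) {F : (Fin n → Fin 3) → ℝ}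
    (h : ∀ c, 0 ≤ F c) : 0 ≤ Ec θ F :=
  Finset.sum_nonneg fun c _ => mul_nonneg (WT_nonneg h0 h1 c) (h c)

lemma Ec_congr {θ : ℝ} {F G : (Fin n → Fin 3) → ℝ} (h : ∀ c, F c = G c) : Ec θ F = Ec θ G := by
  rw [show F = G from funext h]

lemma Ec_const (θ a : ℝ) : Ec (n := n) θ (fun _ => a) = a := by
  unfold Ec
  rw [← Finset.sum_mul, WT_sum, one_mul]

lemma Ec_sum (θ : ℝ) {ι : Type*} (S : Finset ι) (F : ι → (Fin n → Fin 3) → ℝ) :
    Ec θ (fun c => ∑ i ∈ S, F i c) = ∑ i ∈ S, Ec θ (F i) := by
  unfold Ec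
  rw [Finset.sum_comm]
  exact Finset.sum_congr rfl fun c _ => Finset.mul_sum _ _ _

lemma WT_update (θ : ℝ) (c : Fin n → Fin 3) (j : Fin n) (b : Fin 3) :
    WT θ (update c j b) * wt θ (c j) = WT θ c * wt θ b := by
  unfold WT
  rw [← Finset.mul_prod_erase Finset.univ _ (Finset.mem_univ j),
    ← Finset.mul_prod_erase Finset.univ (fun i => wt θ (c i)) (Finset.mem_univ j)]
  have : ∏ x ∈ Finset.univ.erase j, wt θ (update c j b x) =
      ∏ x ∈ Finset.univ.erase j, wt θ (c x) := by
    refine Finset.prod_congr rfl fun x hx => ?_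
    rw [update_of_ne (Finset.ne_of_mem_erase hx)]
  rw [this, update_self]
  ring

lemma transfer (θ : ℝ) (j : Fin n) (G : (Fin n → Fin 3) → ℝ)
    (hG : ∀ c a, G (update c j a) = G c) (a b : Fin 3) :
    Ec θ (fun c => if c j = a then G c else 0) * wt θ b =
      Ec θ (fun c => if c j = b then G c else 0) * wt θ a := by
  unfold Ec
  simp only [mul_ite, mul_zero]
  rw [← Finset.sum_filter, ← Finset.sum_filter, Finset.sum_mul, Finset.sum_mul]
  refine Finset.sum_bij' (fun c _ => update c j b) (fun c _ => update c j a) ?_ ?_ ?_ ?_ ?_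
  · intro c hc; simp
  · intro c hc; simp
  · intro c hc
    have : c j = a := (Finset.mem_filter.mp hc).2
    simp [← this]
  · intro c hc
    have : c j = b := (Finset.mem_filter.mp hc).2
    simp [← this]
  · intro c hc
    have hca : c j = a := (Finset.mem_filter.mp hc).2
    rw [hG]
    have := WT_update θ c j b
    rw [hca] at this
    linear_combination (- G c) * this

lemma marginal (θ : ℝ) (j : Fin n) (G : (Fin n → Fin 3) → ℝ)
    (hG : ∀ c a, G (update c j a) = G c) (a : Fin 3) :
    Ec θ (fun c => if c j = a then G c else 0) = wt θ a * Ec θ G := by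
  have h : ∑ b, Ec θ (fun c => if c j = a then G c else 0) * wt θ b =
      ∑ b, Ec θ (fun c => if c j = b then G c else 0) * wt θ a :=
    Finset.sum_congr rfl fun b _ => transfer θ j G hG a b
  rw [← Finset.mul_sum, wt_sum, mul_one, ← Finset.sum_mul, ← Ec_sum] at h
  rw [h, mul_comm]
  congr 1
  refine Ec_congr fun c => ?_
  simp

/-- the coordinates of type 2 -/
def Iset (c : Fin n → Fin 3) : Finset (Fin n) := Finset.univ.filter (fun i => c i = 2)

lemma Ec_card (θ : ℝ) : Ec (n := n) θ (fun c => ((Iset c).card : ℝ)) = θ * n := by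
  have h : ∀ c : Fin n → Fin 3, ((Iset c).card : ℝ) = ∑ k, if c k = 2 then (1 : ℝ) else 0 := by
    intro c
    unfold Iset
    rw [Finset.card_filter]
    push_cast
    rfl
  rw [Ec_congr h, Ec_sum]
  have : ∀ k : Fin n, Ec θ (fun c => if c k = 2 then (1 : ℝ) else 0) = θ := by
    intro k
    rw [marginal θ k (fun _ => 1) (fun _ _ => rfl), Ec_const]
    simp [wt]
  rw [Finset.sum_congr rfl fun k _ => this k]
  simp [mul_comm]

/-- mass of Alice's set in a context -/
noncomputable def al (f : (Fin n → Bool) → ℝ) (c : Fin n → Fin 3) (σ : Fin n → Bool) : ℝ :=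
  ex (fun x => f (xin c σ x))

/-- mass of Bob's set in a context -/
noncomputable def be (g : (Fin n → Bool) → ℝ) (c : Fin n → Fin 3) (σ : Fin n → Bool) : ℝ :=
  ex (fun y => g (yin c σ y))

/-- Alice's mass with `k` switched on and `j` set to `b` -/
noncomputable def XA (f : (Fin n → Bool) → ℝ) (c : Fin n → Fin 3) (σ : Fin n → Bool)
    (k j : Fin n) (b : Bool) : ℝ :=
  ex (fun x => f (update (update (xin c σ x) k true) j b))

/-- Bob's mass with `k` switched on and `j` set to `b` -/
noncomputable def YB (g : (Fin n → Bool) → ℝ) (c : Fin n → Fin 3) (σ : Fin n → Bool)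
    (k j : Fin n) (b : Bool) : ℝ :=
  ex (fun y => g (update (update (yin c σ y) k true) j b))

lemma xin_update (c : Fin n → Fin 3) (σ x : Fin n → Bool) {k : Fin n} (hk : c k = 2) (b : Bool) :
    xin c (update σ k b) x = update (xin c σ x) k b := by
  funext i
  unfold xin
  by_cases hi : i = k
  · subst hi; simp [hk]
  · simp [update_of_ne hi]

lemma yin_update (c : Fin n → Fin 3) (σ y : Fin n → Bool) {k : Fin n} (hk : c k = 2) (b : Bool) :
    yin c (update σ k b) y = update (yin c σ y) k (!b) := by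
  funext i
  unfold yin
  by_cases hi : i = k
  · subst hi; simp [hk]
  · simp [update_of_ne hi]

lemma xin_ctx (c : Fin n → Fin 3) (σ x : Fin n → Bool) (k j : Fin n) (a : Fin 3) (b : Bool) :
    update (update (xin (update c j a) σ x) k true) j b =
      update (update (xin c σ x) k true) j b := by
  funext i
  by_cases hi : i = j
  · subst hi; simp
  · rw [update_of_ne hi, update_of_ne hi]
    by_cases hk : i = k
    · subst hk; simp
    · rw [update_of_ne hk, update_of_ne hk]
      unfold xin
      rw [update_of_ne hi]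

lemma yin_ctx (c : Fin n → Fin 3) (σ y : Fin n → Bool) (k j : Fin n) (a : Fin 3) (b : Bool) :
    update (update (yin (update c j a) σ y) k true) j b =
      update (update (yin c σ y) k true) j b := by
  funext i
  by_cases hi : i = j
  · subst hi; simp
  · rw [update_of_ne hi, update_of_ne hi]
    by_cases hk : i = k
    · subst hk; simp
    · rw [update_of_ne hk, update_of_ne hk]
      unfold yin
      rw [update_of_ne hi]

lemma XA_ctx (f : (Fin n → Bool) → ℝ) (c : Fin n → Fin 3) (σ : Fin n → Bool) (k j : Fin n)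
    (a : Fin 3) (b : Bool) : XA f (update c j a) σ k j b = XA f c σ k j b := by
  unfold XA
  exact ex_congr fun x => by rw [xin_ctx]

lemma YB_ctx (g : (Fin n → Bool) → ℝ) (c : Fin n → Fin 3) (σ : Fin n → Bool) (k j : Fin n)
    (a : Fin 3) (b : Bool) : YB g (update c j a) σ k j b = YB g c σ k j b := by
  unfold YB
  exact ex_congr fun x => by rw [yin_ctx]

lemma al_eq_XA (f : (Fin n → Bool) → ℝ) (c : Fin n → Fin 3) (s : Fin n → Bool) {k j : Fin n}
    (hk : c k = 2) (hj : c j = 2) (hjk : j ≠ k) : al f c (update s k true) = XA f c s k j (s j) := by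
  unfold al XA
  refine ex_congr fun x => ?_
  rw [xin_update c s x hk]
  congr 1
  have : update (xin c s x) k true j = s j := by
    rw [update_of_ne hjk]
    unfold xin; simp [hj]
  rw [← this]; simp

lemma al_flip_eq_XA (f : (Fin n → Bool) → ℝ) (c : Fin n → Fin 3) (s : Fin n → Bool) {k j : Fin n}
    (hk : c k = 2) (hj : c j = 2) (hjk : j ≠ k) :
    al f c (update (flip s j) k true) = XA f c s k j (!s j) := by
  unfold al XA
  refine ex_congr fun x => ?_
  rw [xin_update c _ x hk]
  unfold flip
  rw [xin_update c s x hj, update_comm hjk]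

lemma be_eq_YB (g : (Fin n → Bool) → ℝ) (c : Fin n → Fin 3) (s : Fin n → Bool) {k j : Fin n}
    (hk : c k = 2) (hj : c j = 2) (hjk : j ≠ k) :
    be g c (update s k false) = YB g c s k j (!s j) := by
  unfold be YB
  refine ex_congr fun x => ?_
  rw [yin_update c s x hk]
  congr 1
  have : update (yin c s x) k (!false) j = !s j := by
    rw [update_of_ne hjk]
    unfold yin; simp [hj]
  rw [← this]; simp

lemma be_flip_eq_YB (g : (Fin n → Bool) → ℝ) (c : Fin n → Fin 3) (s : Fin n → Bool) {k j : Fin n}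
    (hk : c k = 2) (hj : c j = 2) (hjk : j ≠ k) :
    be g c (update (flip s j) k false) = YB g c s k j (s j) := by
  unfold be YB
  refine ex_congr fun x => ?_
  rw [yin_update c _ x hk]
  unfold flip
  rw [yin_update c s x hj, update_comm hjk]
  simp

section

variable {f g : (Fin n → Bool) → ℝ} (hf : ∀ s, 0 ≤ f s) (hg : ∀ s, 0 ≤ g s)

/-- first part of the local energy -/
noncomputable def T1 (f g : (Fin n → Bool) → ℝ) (c : Fin n → Fin 3) (k j : Fin n)
    (s : Fin n → Bool) : ℝ :=
  YB g c s k j false * (√(XA f c s k j true) - √(XA f c s k j false)) ^ 2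

/-- second part of the local energy -/
noncomputable def T2 (f g : (Fin n → Bool) → ℝ) (c : Fin n → Fin 3) (k j : Fin n)
    (s : Fin n → Bool) : ℝ :=
  XA f c s k j false * (√(YB g c s k j true) - √(YB g c s k j false)) ^ 2

lemma T1_ctx (f g : (Fin n → Bool) → ℝ) (c : Fin n → Fin 3) (s : Fin n → Bool) (k j : Fin n)
    (a : Fin 3) : T1 f g (update c j a) k j s = T1 f g c k j s := by
  unfold T1
  rw [XA_ctx, XA_ctx, YB_ctx]

lemma T2_ctx (f g : (Fin n → Bool) → ℝ) (c : Fin n → Fin 3) (s : Fin n → Bool) (k j : Fin n)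
    (a : Fin 3) : T2 f g (update c j a) k j s = T2 f g c k j s := by
  unfold T2
  rw [XA_ctx, YB_ctx, YB_ctx]

lemma four_points {A1 A0 B1 B0 : ℝ} (hA1 : 0 ≤ A1) (hA0 : 0 ≤ A0) (_ : 0 ≤ B1) (hB0 : 0 ≤ B0) :
    (√(A1 * B0) - √(A0 * B1)) ^ 2 ≤
      2 * (B0 * (√A1 - √A0) ^ 2) + 2 * (A0 * (√B1 - √B0) ^ 2) := by
  rw [Real.sqrt_mul hA1, Real.sqrt_mul hA0]
  have h1 := Real.sq_sqrt hB0
  have h2 := Real.sq_sqrt hA0
  have e : √A1 * √B0 - √A0 * √B1 = √B0 * (√A1 - √A0) - √A0 * (√B1 - √B0) := by ring
  rw [e]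
  have h3 : (√B0 * (√A1 - √A0)) ^ 2 = B0 * (√A1 - √A0) ^ 2 := by rw [mul_pow, h1]
  have h4 : (√A0 * (√B1 - √B0)) ^ 2 = A0 * (√B1 - √B0) ^ 2 := by rw [mul_pow, h2]
  rw [← h3, ← h4]
  nlinarith [sq_nonneg (√B0 * (√A1 - √A0) + √A0 * (√B1 - √B0))]

include hf hg in
lemma local_energy (c : Fin n → Fin 3) (s : Fin n → Bool) {k j : Fin n}
    (hk : c k = 2) (hj : c j = 2) (hjk : j ≠ k) :
    (√(aF (al f c) (be g c) k s) - √(aF (al f c) (be g c) k (flip s j))) ^ 2 ≤
      2 * T1 f g c k j s + 2 * T2 f g c k j s := by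
  have hX : ∀ b, 0 ≤ XA f c s k j b := fun b => ex_nonneg fun x => hf _
  have hY : ∀ b, 0 ≤ YB g c s k j b := fun b => ex_nonneg fun x => hg _
  unfold aF
  rw [al_eq_XA f c s hk hj hjk, al_flip_eq_XA f c s hk hj hjk, be_eq_YB g c s hk hj hjk,
    be_flip_eq_YB g c s hk hj hjk]
  unfold T1 T2
  have h := four_points (hX true) (hX false) (hY true) (hY false)
  cases s j
  · simp only [Bool.not_false]
    calc _ = (√(XA f c s k j true * YB g c s k j false) -
          √(XA f c s k j false * YB g c s k j true)) ^ 2 := by ring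
      _ ≤ _ := h
  · simp only [Bool.not_true]
    exact h

lemma al_not_mem (f : (Fin n → Bool) → ℝ) (c : Fin n → Fin 3) (s : Fin n → Bool) {j : Fin n}
    (hj : c j ≠ 2) (b : Bool) : al f c (update s j b) = al f c s := by
  unfold al
  refine ex_congr fun x => ?_
  congr 1
  funext i
  unfold xin
  by_cases hi : i = j
  · subst hi
    have h3 : c i = 0 ∨ c i = 1 := by omega
    rcases h3 with h3 | h3 <;> simp [h3]
  · simp [update_of_ne hi]

lemma be_not_mem (g : (Fin n → Bool) → ℝ) (c : Fin n → Fin 3) (s : Fin n → Bool) {j : Fin n}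
    (hj : c j ≠ 2) (b : Bool) : be g c (update s j b) = be g c s := by
  unfold be
  refine ex_congr fun x => ?_
  congr 1
  funext i
  unfold yin
  by_cases hi : i = j
  · subst hi
    have h3 : c i = 0 ∨ c i = 1 := by omega
    rcases h3 with h3 | h3 <;> simp [h3]
  · simp [update_of_ne hi]

lemma aF_not_mem (f g : (Fin n → Bool) → ℝ) (c : Fin n → Fin 3) (s : Fin n → Bool) {k j : Fin n}
    (hj : c j ≠ 2) (hjk : j ≠ k) :
    aF (al f c) (be g c) k (flip s j) = aF (al f c) (be g c) k s := by
  unfold aF flip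
  rw [update_comm hjk, update_comm hjk, al_not_mem f c _ hj, be_not_mem g c _ hj]

include hf hg in
lemma energy_le (c : Fin n → Fin 3) {k : Fin n} (hk : c k = 2) :
    energy (al f c) (be g c) k ≤
      ∑ j, if c j = 2 then (if j ≠ k then 2 * ex (T1 f g c k j) + 2 * ex (T2 f g c k j) else 0)
        else 0 := by
  unfold energy
  refine Finset.sum_le_sum fun j _ => ?_
  split_ifs with h1 h2
  · rw [← ex_mul_left, ← ex_mul_left, ← ex_add]
    exact ex_mono fun s => local_energy hf hg c s hk h1 h2
  · have : j = k := by simpa using h2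
    subst this
    have : ∀ s, (√(aF (al f c) (be g c) j s) - √(aF (al f c) (be g c) j (flip s j))) ^ 2 = 0 := by
      intro s; rw [aF_flip_self]; ring
    rw [ex_congr this, ex_const]
  · have hjk : j ≠ k := by
      intro h; subst h; exact h1 hk
    have : ∀ s, (√(aF (al f c) (be g c) k s) - √(aF (al f c) (be g c) k (flip s j))) ^ 2 = 0 := by
      intro s; rw [aF_not_mem f g c s h1 hjk]; ring
    rw [ex_congr this, ex_const]

lemma YB_zero (g : (Fin n → Bool) → ℝ) (c : Fin n → Fin 3) (s : Fin n → Bool) {k j : Fin n}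
    (hk : c k = 2) (hj : c j = 0) (hjk : j ≠ k) :
    YB g c s k j false = be g c (update s k false) := by
  unfold YB be
  refine ex_congr fun y => ?_
  rw [yin_update c s y hk]
  congr 1
  have : update (yin c s y) k (!false) j = false := by
    rw [update_of_ne hjk]; unfold yin; simp [hj]
  nth_rewrite 1 [← this]
  simp

lemma XA_zero (f : (Fin n → Bool) → ℝ) (c : Fin n → Fin 3) (s : Fin n → Bool) {k j : Fin n}
    (hk : c k = 2) (hj : c j = 0) (hjk : j ≠ k) (b : Bool) :
    XA f c s k j b = ex (fun x => f (xin c (update s k true) (update x j b))) := by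
  unfold XA
  refine ex_congr fun x => ?_
  congr 1
  rw [xin_update c s _ hk]
  funext i
  by_cases hi : i = j
  · subst hi
    rw [update_self, update_of_ne hjk]
    unfold xin; simp [hj]
  · rw [update_of_ne hi]
    by_cases hik : i = k
    · subst hik; simp
    · rw [update_of_ne hik, update_of_ne hik]
      unfold xin; simp [update_of_ne hi]

lemma XA_one (f : (Fin n → Bool) → ℝ) (c : Fin n → Fin 3) (s : Fin n → Bool) {k j : Fin n}
    (hk : c k = 2) (hj : c j = 1) (hjk : j ≠ k) :
    XA f c s k j false = al f c (update s k true) := by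
  unfold XA al
  refine ex_congr fun y => ?_
  rw [xin_update c s y hk]
  congr 1
  have : update (xin c s y) k true j = false := by
    rw [update_of_ne hjk]; unfold xin; simp [hj]
  nth_rewrite 1 [← this]
  simp

lemma YB_one (g : (Fin n → Bool) → ℝ) (c : Fin n → Fin 3) (s : Fin n → Bool) {k j : Fin n}
    (hk : c k = 2) (hj : c j = 1) (hjk : j ≠ k) (b : Bool) :
    YB g c s k j b = ex (fun y => g (yin c (update s k false) (update y j b))) := by
  unfold YB
  refine ex_congr fun x => ?_
  congr 1
  rw [yin_update c s _ hk]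
  funext i
  by_cases hi : i = j
  · subst hi
    rw [update_self, update_of_ne hjk]
    unfold yin; simp [hj]
  · rw [update_of_ne hi]
    by_cases hik : i = k
    · subst hik; simp
    · rw [update_of_ne hik, update_of_ne hik]
      unfold yin; simp [update_of_ne hi]

variable (hf1 : ∀ s, f s ≤ 1) (hg1 : ∀ s, g s ≤ 1)

include hf hg hf1 in
lemma sum_T1 (c : Fin n → Fin 3) (s : Fin n → Bool) {k : Fin n} (hk : c k = 2) :
    ∑ j, (if c j = 0 then (if j ≠ k then T1 f g c k j s else 0) else 0) ≤
      4 * (be g c (update s k false) * Real.negMulLog (al f c (update s k true))) := by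
  have hb := budget (fun x => f (xin c (update s k true) x)) (fun x => hf _) (fun x => hf1 _)
  have hB : 0 ≤ be g c (update s k false) := ex_nonneg fun y => hg _
  calc _ ≤ ∑ j, be g c (update s k false) *
        (√(ex (fun x => f (xin c (update s k true) (update x j true)))) -
          √(ex (fun x => f (xin c (update s k true) (update x j false))))) ^ 2 := by
        refine Finset.sum_le_sum fun j _ => ?_
        split_ifs with h1 h2
        · unfold T1
          rw [YB_zero g c s hk h1 h2, XA_zero f c s hk h1 h2, XA_zero f c s hk h1 h2]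
        · exact mul_nonneg hB (sq_nonneg _)
        · exact mul_nonneg hB (sq_nonneg _)
    _ ≤ _ := by
        rw [← Finset.mul_sum]
        unfold al
        nlinarith [mul_le_mul_of_nonneg_left hb hB]

include hf hg hg1 in
lemma sum_T2 (c : Fin n → Fin 3) (s : Fin n → Bool) {k : Fin n} (hk : c k = 2) :
    ∑ j, (if c j = 1 then (if j ≠ k then T2 f g c k j s else 0) else 0) ≤
      4 * (al f c (update s k true) * Real.negMulLog (be g c (update s k false))) := by
  have hb := budget (fun y => g (yin c (update s k false) y)) (fun x => hg _) (fun x => hg1 _)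
  have hA : 0 ≤ al f c (update s k true) := ex_nonneg fun y => hf _
  calc _ ≤ ∑ j, al f c (update s k true) *
        (√(ex (fun y => g (yin c (update s k false) (update y j true)))) -
          √(ex (fun y => g (yin c (update s k false) (update y j false))))) ^ 2 := by
        refine Finset.sum_le_sum fun j _ => ?_
        split_ifs with h1 h2
        · unfold T2
          rw [XA_one f c s hk h1 h2, YB_one g c s hk h1 h2, YB_one g c s hk h1 h2]
        · exact mul_nonneg hA (sq_nonneg _)
        · exact mul_nonneg hA (sq_nonneg _)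
    _ ≤ _ := by
        rw [← Finset.mul_sum]
        unfold be
        nlinarith [mul_le_mul_of_nonneg_left hb hA]

end

end MP052029
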