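import Mathlib

/-!
Averages on the cube `Fin n → Bool`: Poincare inequality, the Hellinger budget
inequality, and the lemma on pairs of functions with disjoint supports.
-/

namespace MP052029

open Finset Function

/-- average over the cube -/
noncomputable def ex {n : ℕ} (F : (Fin n → Bool) → ℝ) : ℝ := (∑ s, F s) / 2 ^ n

/-- change coordinate `j` -/
def flip {n : ℕ} (s : Fin n → Bool) (j : Fin n) : Fin n → Bool := update s j (!s j)

variable {n : ℕ}

lemma ex_add (F G : (Fin n → Bool) → ℝ) : ex (fun s => F s + G s) = ex F + ex G := by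
  unfold ex; rw [Finset.sum_add_distrib, add_div]

lemma ex_sub (F G : (Fin n → Bool) → ℝ) : ex (fun s => F s - G s) = ex F - ex G := by
  unfold ex; rw [Finset.sum_sub_distrib, sub_div]

lemma ex_mul_left (c : ℝ) (F : (Fin n → Bool) → ℝ) : ex (fun s => c * F s) = c * ex F := by
  unfold ex; rw [← Finset.mul_sum, mul_div_assoc]

lemma ex_mul_right (c : ℝ) (F : (Fin n → Bool) → ℝ) : ex (fun s => F s * c) = ex F * c := by
  unfold ex; rw [← Finset.sum_mul]; ring

lemma ex_const (c : ℝ) : ex (fun _ : Fin n → Bool => c) = c := by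
  unfold ex
  simp

lemma ex_mono {F G : (Fin n → Bool) → ℝ} (h : ∀ s, F s ≤ G s) : ex F ≤ ex G := by
  unfold ex
  exact div_le_div_of_nonneg_right (Finset.sum_le_sum fun s _ => h s) (by positivity)

lemma ex_nonneg {F : (Fin n → Bool) → ℝ} (h : ∀ s, 0 ≤ F s) : 0 ≤ ex F := by
  unfold ex
  exact div_nonneg (Finset.sum_nonneg fun s _ => h s) (by positivity)

lemma ex_congr {F G : (Fin n → Bool) → ℝ} (h : ∀ s, F s = G s) : ex F = ex G := by
  have : F = G := funext h
  rw [this]

lemma ex_sum {ι : Type*} (S : Finset ι) (F : ι → (Fin n → Bool) → ℝ) :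
    ex (fun s => ∑ i ∈ S, F i s) = ∑ i ∈ S, ex (F i) := by
  unfold ex
  rw [Finset.sum_comm, Finset.sum_div]

lemma flip_flip (s : Fin n → Bool) (j : Fin n) : flip (flip s j) j = s := by
  unfold flip
  simp

lemma ex_flip (F : (Fin n → Bool) → ℝ) (j : Fin n) : ex (fun s => F (flip s j)) = ex F := by
  unfold ex
  congr 1
  exact Function.Involutive.bijective (fun s => flip_flip s j) |>.sum_comp F

lemma ex_update (F : (Fin n → Bool) → ℝ) (j : Fin n) :
    ex (fun s => F (update s j false)) + ex (fun s => F (update s j true)) = 2 * ex F := by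
  rw [← ex_add]
  have h : ∀ s : Fin n → Bool,
      F (update s j false) + F (update s j true) = F s + F (flip s j) := by
    intro s
    unfold flip
    cases hs : s j
    · have : update s j false = s := by rw [← hs]; simp
      rw [this]; simp
    · have : update s j true = s := by rw [← hs]; simp
      rw [this]; simp [add_comm]
  rw [ex_congr h, ex_add, ex_flip]
  ring

lemma ex_update_le (F : (Fin n → Bool) → ℝ) (hF : ∀ s, 0 ≤ F s) (j : Fin n) (b : Bool) :
    ex (fun s => F (update s j b)) ≤ 2 * ex F := by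
  rw [← ex_update F j]
  have h0 : 0 ≤ ex (fun s => F (update s j false)) := ex_nonneg fun s => hF _
  have h1 : 0 ≤ ex (fun s => F (update s j true)) := ex_nonneg fun s => hF _
  cases b <;> simp <;> linarith

lemma ex_zero (F : (Fin 0 → Bool) → ℝ) (s : Fin 0 → Bool) : ex F = F s := by
  unfold ex
  rw [Fintype.sum_subsingleton _ s]; simp

lemma ex_succ (F : (Fin (n + 1) → Bool) → ℝ) :
    ex F = (ex (fun s => F (Fin.cons false s)) + ex (fun s => F (Fin.cons true s))) / 2 := by
  unfold ex
  have h : ∑ s, F s = ∑ p : Bool × (Fin n → Bool), F (Fin.cons p.1 p.2) := by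
    symm
    exact Fintype.sum_equiv (Fin.consEquiv fun _ => Bool) _ _ (fun p => rfl)
  rw [h, Fintype.sum_prod_type]
  simp only [Fintype.sum_bool]
  rw [pow_succ]
  field_simp
  ring

lemma ex_cs (F G : (Fin n → Bool) → ℝ) :
    (ex (fun s => F s * G s)) ^ 2 ≤ ex (fun s => F s ^ 2) * ex (fun s => G s ^ 2) := by
  unfold ex
  rw [div_pow, div_mul_div_comm, ← sq ((2 : ℝ) ^ n)]
  exact div_le_div_of_nonneg_right (Finset.sum_mul_sq_le_sq_mul_sq _ _ _) (by positivity)

lemma ex_sq_le (F : (Fin n → Bool) → ℝ) : (ex F) ^ 2 ≤ ex (fun s => F s ^ 2) := by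
  have h := ex_cs F (fun _ => 1)
  simpa [ex_const] using h

lemma flip_cons_zero (b : Bool) (s : Fin n → Bool) :
    flip (Fin.cons b s : Fin (n + 1) → Bool) 0 = Fin.cons (!b) s := by
  unfold flip
  rw [Fin.update_cons_zero]; rfl

lemma flip_cons_succ (b : Bool) (s : Fin n → Bool) (j : Fin n) :
    flip (Fin.cons b s : Fin (n + 1) → Bool) j.succ = Fin.cons b (flip s j) := by
  unfold flip
  rw [← Fin.cons_update]
  rfl

theorem poincare : ∀ {n : ℕ} (F : (Fin n → Bool) → ℝ),
    ex (fun s => F s ^ 2) - (ex F) ^ 2 ≤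
      (1 / 4) * ∑ j, ex (fun s => (F s - F (flip s j)) ^ 2) := by
  intro n
  induction n with
  | zero =>
    intro F
    rw [ex_zero F default, ex_zero _ default]
    simp
  | succ n ih =>
    intro F
    have h0 := ih (fun s => F (Fin.cons false s))
    have h1 := ih (fun s => F (Fin.cons true s))
    rw [Fin.sum_univ_succ, ex_succ (fun s => F s ^ 2), ex_succ F]
    have e0 : ex (fun s : Fin (n + 1) → Bool => (F s - F (flip s 0)) ^ 2) =
        ex (fun s => (F (Fin.cons false s) - F (Fin.cons true s)) ^ 2) := by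
      rw [ex_succ]
      simp only [flip_cons_zero, Bool.not_false, Bool.not_true]
      have : ∀ s : Fin n → Bool, (F (Fin.cons true s) - F (Fin.cons false s)) ^ 2 =
          (F (Fin.cons false s) - F (Fin.cons true s)) ^ 2 := fun s => by ring
      rw [ex_congr this]; ring
    have e1 : ∑ j : Fin n, ex (fun s : Fin (n + 1) → Bool => (F s - F (flip s j.succ)) ^ 2) =
        (∑ j, ex (fun s => (F (Fin.cons false s) - F (Fin.cons false (flip s j))) ^ 2) +
          ∑ j, ex (fun s => (F (Fin.cons true s) - F (Fin.cons true (flip s j))) ^ 2)) / 2 := by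
      rw [← Finset.sum_add_distrib, Finset.sum_div]
      refine Finset.sum_congr rfl fun j _ => ?_
      rw [ex_succ]
      simp only [flip_cons_succ]
    rw [e0, e1]
    have hj := ex_sq_le (fun s => F (Fin.cons false s) - F (Fin.cons true s))
    rw [ex_sub] at hj
    nlinarith [h0, h1, hj]

/-! ### the entropy / Hellinger budget -/

lemma aux_log {a α : ℝ} (ha : 0 ≤ a) (hα : 0 < α) :
    2 * a - 2 * (√a * √α) ≤ a * Real.log a - a * Real.log α := by
  rcases eq_or_lt_of_le ha with h | h
  · simp [← h]
  · have hsa : 0 < √a := Real.sqrt_pos.mpr h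
    have hsα : 0 < √α := Real.sqrt_pos.mpr hα
    have hl := Real.log_le_sub_one_of_pos (div_pos hsα hsa)
    rw [Real.log_div hsα.ne' hsa.ne', Real.log_sqrt hα.le, Real.log_sqrt ha] at hl
    have haa : a = √a * √a := (Real.mul_self_sqrt ha).symm
    have h2 : 2 * a * (Real.log α / 2 - Real.log a / 2) ≤ 2 * a * (√α / √a - 1) :=
      mul_le_mul_of_nonneg_left hl (by linarith)
    have h3 : 2 * a * (√α / √a - 1) = 2 * (√a * √α) - 2 * a := by
      have : a * (√α / √a) = √a * √α := by
        nth_rewrite 1 [haa]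
        field_simp
      nlinarith [this]
    nlinarith [h2, h3]

lemma two_point {a b : ℝ} (ha : 0 ≤ a) (hb : 0 ≤ b) :
    (√a - √b) ^ 2 + 2 * Real.negMulLog a + 2 * Real.negMulLog b ≤
      4 * Real.negMulLog ((a + b) / 2) := by
  rcases eq_or_lt_of_le (add_nonneg ha hb) with h | h
  · have ha0 : a = 0 := by linarith
    have hb0 : b = 0 := by linarith
    simp [ha0, hb0]
  · set α := (a + b) / 2 with hα
    have hαp : 0 < α := by rw [hα]; linarith
    have h1 := aux_log ha hαp
    have h2 := aux_log hb hαp
    have hsa := Real.mul_self_sqrt ha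
    have hsb := Real.mul_self_sqrt hb
    have hsα := Real.mul_self_sqrt hαp.le
    unfold Real.negMulLog
    have key : 4 * (-α * Real.log α) = -2 * (a * Real.log α) - 2 * (b * Real.log α) := by
      have : a + b = 2 * α := by rw [hα]; ring
      linear_combination (2 * Real.log α) * this
    rw [key]
    have hab : a + b = 2 * α := by rw [hα]; ring
    have hsq : (√a - √b) ^ 2 ≤ 4 * (a + b - (√a * √α + √b * √α)) := by
      nlinarith [sq_nonneg (2 * √α - (√a + √b)), hsa, hsb, hsα, hab]
    nlinarith [h1, h2, hsq]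

lemma conv_hell {p q p' q' : ℝ} (hp : 0 ≤ p) (hq : 0 ≤ q) (hp' : 0 ≤ p') (hq' : 0 ≤ q') :
    (√((p + q) / 2) - √((p' + q') / 2)) ^ 2 ≤
      ((√p - √p') ^ 2 + (√q - √q') ^ 2) / 2 := by
  have h1 := Real.mul_self_sqrt hp
  have h2 := Real.mul_self_sqrt hq
  have h3 := Real.mul_self_sqrt hp'
  have h4 := Real.mul_self_sqrt hq'
  have h5 := Real.mul_self_sqrt (show 0 ≤ (p + q) / 2 by linarith)
  have h6 := Real.mul_self_sqrt (show 0 ≤ (p' + q') / 2 by linarith)
  have hc : (√p * √p' + √q * √q') / 2 ≤ √((p + q) / 2) * √((p' + q') / 2) := by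
    rw [← Real.sqrt_mul (show (0 : ℝ) ≤ (p + q) / 2 by linarith)]
    apply Real.le_sqrt_of_sq_le
    nlinarith [sq_nonneg (√p * √q' - √q * √p'), h1, h2, h3, h4, Real.sqrt_nonneg p,
      Real.sqrt_nonneg q, Real.sqrt_nonneg p', Real.sqrt_nonneg q',
      mul_nonneg hp hp', mul_nonneg hq hq', mul_nonneg hp hq', mul_nonneg hq hp']
  nlinarith [hc, h1, h2, h3, h4, h5, h6]

theorem budget : ∀ {n : ℕ} (F : (Fin n → Bool) → ℝ), (∀ s, 0 ≤ F s) → (∀ s, F s ≤ 1) →
    ∑ j, (√(ex (fun s => F (update s j true))) - √(ex (fun s => F (update s j false)))) ^ 2 ≤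
      4 * Real.negMulLog (ex F) := by
  intro n
  induction n with
  | zero =>
    intro F h0 h1
    simp only [Finset.univ_eq_empty, Finset.sum_empty]
    have := Real.negMulLog_nonneg (ex_nonneg h0) (by
      have := ex_mono (G := fun _ => (1 : ℝ)) h1
      rwa [ex_const] at this)
    linarith
  | succ n ih =>
    intro F h0 h1
    have i0 := ih (fun s => F (Fin.cons false s)) (fun s => h0 _) (fun s => h1 _)
    have i1 := ih (fun s => F (Fin.cons true s)) (fun s => h0 _) (fun s => h1 _)
    rw [Fin.sum_univ_succ]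
    have e0 : ∀ b : Bool, ex (fun s : Fin (n + 1) → Bool => F (update s 0 b)) =
        ex (fun s => F (Fin.cons b s)) := by
      intro b
      rw [ex_succ]
      simp only [Fin.update_cons_zero]
      ring
    have e1 : ∀ (b : Bool) (j : Fin n), ex (fun s : Fin (n + 1) → Bool => F (update s j.succ b)) =
        (ex (fun s => F (Fin.cons false (update s j b))) +
          ex (fun s => F (Fin.cons true (update s j b)))) / 2 := by
      intro b j
      rw [ex_succ]
      simp only [← Fin.cons_update]
    rw [e0, e0]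
    have hs : ∑ j : Fin n, (√(ex (fun s : Fin (n + 1) → Bool => F (update s j.succ true))) -
        √(ex (fun s : Fin (n + 1) → Bool => F (update s j.succ false)))) ^ 2 ≤
        2 * Real.negMulLog (ex (fun s => F (Fin.cons false s))) +
        2 * Real.negMulLog (ex (fun s => F (Fin.cons true s))) := by
      calc _ ≤ ∑ j : Fin n, ((√(ex (fun s => F (Fin.cons false (update s j true)))) -
            √(ex (fun s => F (Fin.cons false (update s j false))))) ^ 2 +
          (√(ex (fun s => F (Fin.cons true (update s j true)))) -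
            √(ex (fun s => F (Fin.cons true (update s j false))))) ^ 2) / 2 := by
            refine Finset.sum_le_sum fun j _ => ?_
            rw [e1, e1]
            exact conv_hell (ex_nonneg fun s => h0 _) (ex_nonneg fun s => h0 _)
              (ex_nonneg fun s => h0 _) (ex_nonneg fun s => h0 _)
        _ ≤ _ := by
            rw [← Finset.sum_div, Finset.sum_add_distrib]
            linarith
    have ht := two_point (a := ex (fun s => F (Fin.cons true s)))
      (b := ex (fun s => F (Fin.cons false s))) (ex_nonneg fun s => h0 _) (ex_nonneg fun s => h0 _)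
    rw [ex_succ F]
    have hc : (ex (fun s => F (Fin.cons true s)) + ex (fun s => F (Fin.cons false s))) / 2 =
        (ex (fun s => F (Fin.cons false s)) + ex (fun s => F (Fin.cons true s))) / 2 := by ring
    rw [hc] at ht
    linarith

end MP052029
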