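import Pool.Agent.Lib.MP_052029_lc.Cube

/-!
The cube lemma: if `α s * β s = 0` for all `s`, then the masses of the functions
`α (s with s_k = 1) * β (s with s_k = 0)` sum to at most `4 E α E β` plus six times the energy.
-/

namespace MP052029

open Finset Function

variable {n : ℕ}

/-- `α` at `s` with coordinate `k` switched on times `β` at `s` with `k` switched off -/
def aF (α β : (Fin n → Bool) → ℝ) (k : Fin n) (s : Fin n → Bool) : ℝ :=
  α (update s k true) * β (update s k false)

/-- energy of `√(aF α β k)` -/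
noncomputable def energy (α β : (Fin n → Bool) → ℝ) (k : Fin n) : ℝ :=
  ∑ j, ex (fun s => (√(aF α β k s) - √(aF α β k (flip s j))) ^ 2)

section

variable {α β : (Fin n → Bool) → ℝ} (hα : ∀ s, 0 ≤ α s) (hβ : ∀ s, 0 ≤ β s)
  (h : ∀ s, α s * β s = 0)

include hα hβ in
lemma aF_nonneg (k : Fin n) (s : Fin n → Bool) : 0 ≤ aF α β k s :=
  mul_nonneg (hα _) (hβ _)

lemma aF_flip_self (j : Fin n) (s : Fin n → Bool) : aF α β j (flip s j) = aF α β j s := by
  unfold aF flip
  simp

include h in
lemma same_value {j k : Fin n} {s : Fin n → Bool} (hj : aF α β j s ≠ 0) (hk : aF α β k s ≠ 0) :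
    s j = s k := by
  unfold aF at hj hk
  by_contra hne
  cases hsj : s j
  · have hsk : s k = true := by
      cases hsk : s k
      · exact absurd (hsj.trans hsk.symm) hne
      · rfl
    have e1 : update s j false = s := by rw [← hsj]; simp
    have e2 : update s k true = s := by rw [← hsk]; simp
    rw [e1] at hj
    rw [e2] at hk
    have := h s
    rcases mul_eq_zero.mp this with h0 | h0
    · exact hk (by rw [h0, zero_mul])
    · exact hj (by rw [h0, mul_zero])
  · have hsk : s k = false := by
      cases hsk : s k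
      · rfl
      · exact absurd (hsj.trans hsk.symm) hne
    have e1 : update s j true = s := by rw [← hsj]; simp
    have e2 : update s k false = s := by rw [← hsk]; simp
    rw [e1] at hj
    rw [e2] at hk
    have := h s
    rcases mul_eq_zero.mp this with h0 | h0
    · exact hj (by rw [h0, zero_mul])
    · exact hk (by rw [h0, mul_zero])

include h in
lemma flip_kills {j k : Fin n} {s : Fin n → Bool} (hjk : j ≠ k) (hj : aF α β j s ≠ 0)
    (hk : aF α β k s ≠ 0) : aF α β k (flip s j) = 0 := by
  by_contra hne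
  have h1 := same_value h hj hk
  have h2 : flip s j j = flip s j k :=
    same_value h (by rw [aF_flip_self]; exact hj) hne
  unfold flip at h2
  rw [update_self, update_of_ne hjk.symm] at h2
  rw [← h1] at h2
  cases s j <;> simp at h2

variable (I : Finset (Fin n))

open Classical in
/-- `√ aF` where `k` is the only alive index -/
noncomputable def bF (α β : (Fin n → Bool) → ℝ) (I : Finset (Fin n)) (k : Fin n)
    (s : Fin n → Bool) : ℝ :=
  if ∃ j ∈ I, j ≠ k ∧ aF α β j s ≠ 0 then 0 else √(aF α β k s)

open Classical in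
/-- `√ aF` where `k` is not the only alive index -/
noncomputable def cF (α β : (Fin n → Bool) → ℝ) (I : Finset (Fin n)) (k : Fin n)
    (s : Fin n → Bool) : ℝ :=
  if ∃ j ∈ I, j ≠ k ∧ aF α β j s ≠ 0 then √(aF α β k s) else 0

lemma b_add_c (k : Fin n) (s : Fin n → Bool) :
    √(aF α β k s) = bF α β I k s + cF α β I k s := by
  unfold bF cF
  split_ifs <;> simp

include hα hβ in
lemma b_sq_add_c_sq (k : Fin n) (s : Fin n → Bool) :
    aF α β k s = bF α β I k s ^ 2 + cF α β I k s ^ 2 := by
  have := Real.sq_sqrt (aF_nonneg hα hβ k s)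
  unfold bF cF
  split_ifs <;> simp [this]

include h in
lemma c_sq_le (k : Fin n) (s : Fin n → Bool) :
    cF α β I k s ^ 2 ≤ ∑ j, (√(aF α β k s) - √(aF α β k (flip s j))) ^ 2 := by
  have hpos : ∀ j ∈ (Finset.univ : Finset (Fin n)),
      0 ≤ (√(aF α β k s) - √(aF α β k (flip s j))) ^ 2 := fun j _ => sq_nonneg _
  unfold cF
  split_ifs with hc
  · obtain ⟨j, _, hjk, hj⟩ := hc
    by_cases hk : aF α β k s = 0
    · rw [hk]; simp only [Real.sqrt_zero]
      calc (0 : ℝ) ^ 2 = 0 := by norm_num
        _ ≤ _ := Finset.sum_nonneg fun j _ => sq_nonneg _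
    · have h0 := flip_kills h hjk hj hk
      have h1 := Finset.single_le_sum hpos (Finset.mem_univ j)
      simp only [h0, Real.sqrt_zero, sub_zero] at h1
      exact h1
  · calc (0 : ℝ) ^ 2 = 0 := by norm_num
      _ ≤ _ := Finset.sum_nonneg hpos

include h in
lemma ex_c_sq_le (k : Fin n) : ex (fun s => cF α β I k s ^ 2) ≤ energy α β k := by
  unfold energy
  rw [← ex_sum]
  exact ex_mono fun s => c_sq_le h I k s

open Classical in
/-- the probability that `k` is the only alive index -/
noncomputable def pF (α β : (Fin n → Bool) → ℝ) (I : Finset (Fin n)) (k : Fin n) : ℝ :=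
  ex (fun s => if bF α β I k s = 0 then 0 else 1)

lemma p_add_p {j k : Fin n} (hj : j ∈ I) (hk : k ∈ I) (hjk : j ≠ k) :
    pF α β I j + pF α β I k ≤ 1 := by
  unfold pF
  rw [← ex_add]
  refine le_trans (ex_mono (G := fun _ => (1 : ℝ)) fun s => ?_) (ex_const 1).le
  split_ifs with h1 h2 h2
  · simp
  · simp
  · simp
  · exfalso
    have h3 : aF α β j s ≠ 0 := by
      intro h0; apply h1; unfold bF; split_ifs <;> simp [h0]
    apply h2
    unfold bF
    rw [if_pos ⟨j, hj, hjk, h3⟩]

lemma ex_b_sq_le (k : Fin n) :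
    (ex (bF α β I k)) ^ 2 ≤ pF α β I k * ex (fun s => bF α β I k s ^ 2) := by
  classical
  have h1 := ex_cs (fun s => if bF α β I k s = 0 then (0 : ℝ) else 1) (bF α β I k)
  have e1 : (fun s => (if bF α β I k s = 0 then (0 : ℝ) else 1) * bF α β I k s) = bF α β I k := by
    funext s; split_ifs with h0
    · rw [h0]; simp
    · simp
  have e2 : (fun s => (if bF α β I k s = 0 then (0 : ℝ) else 1) ^ 2) =
      fun s => (if bF α β I k s = 0 then (0 : ℝ) else 1) := by
    funext s; split_ifs <;> simp
  rw [e1, e2] at h1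
  unfold pF
  convert h1 using 2

lemma ex_sub_sq (F : (Fin n → Bool) → ℝ) (m : ℝ) :
    ex (fun s => (F s - m) ^ 2) = ex (fun s => F s ^ 2) - 2 * m * ex F + m ^ 2 := by
  have : ∀ s, (F s - m) ^ 2 = (F s ^ 2 - (2 * m) * F s) + m ^ 2 := fun s => by ring
  rw [ex_congr this, ex_add, ex_sub, ex_mul_left, ex_const]

include h in
lemma var_b (k : Fin n) :
    ex (fun s => bF α β I k s ^ 2) - (ex (bF α β I k)) ^ 2 ≤ (5 / 2) * energy α β k := by
  set m := ex (fun s => √(aF α β k s)) with hm
  have h1 : ex (fun s => bF α β I k s ^ 2) - (ex (bF α β I k)) ^ 2 ≤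
      ex (fun s => (bF α β I k s - m) ^ 2) := by
    rw [ex_sub_sq]
    nlinarith [sq_nonneg (ex (bF α β I k) - m)]
  have h2 : ex (fun s => (bF α β I k s - m) ^ 2) ≤
      2 * ex (fun s => (√(aF α β k s) - m) ^ 2) + 2 * ex (fun s => cF α β I k s ^ 2) := by
    rw [← ex_mul_left, ← ex_mul_left, ← ex_add]
    refine ex_mono fun s => ?_
    have := b_add_c (α := α) (β := β) I k s
    have e : bF α β I k s - m = (√(aF α β k s) - m) - cF α β I k s := by rw [this]; ring
    rw [e]
    nlinarith [sq_nonneg ((√(aF α β k s) - m) + cF α β I k s)]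
  have h3 : ex (fun s => (√(aF α β k s) - m) ^ 2) ≤ (1 / 4) * energy α β k := by
    have hp := poincare (fun s => √(aF α β k s))
    rw [ex_sub_sq, ← hm]
    unfold energy
    nlinarith [hp]
  have h4 := ex_c_sq_le h I k
  linarith

lemma energy_nonneg (k : Fin n) : 0 ≤ energy α β k := by
  unfold energy
  exact Finset.sum_nonneg fun j _ => ex_nonneg fun s => sq_nonneg _

include hα hβ h in
lemma small_case (k : Fin n) (hp : pF α β I k ≤ 1 / 2) :
    ex (aF α β k) ≤ 6 * energy α β k := by
  have h1 := var_b h I k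
  have h2 := ex_b_sq_le (α := α) (β := β) I k
  have h0 : 0 ≤ ex (fun s => bF α β I k s ^ 2) := ex_nonneg fun s => sq_nonneg _
  have h3 : ex (aF α β k) = ex (fun s => bF α β I k s ^ 2) + ex (fun s => cF α β I k s ^ 2) := by
    rw [← ex_add]
    exact ex_congr fun s => b_sq_add_c_sq hα hβ I k s
  have h4 := ex_c_sq_le h I k
  nlinarith [h1, h2, h3, h4, mul_le_mul_of_nonneg_right hp h0]

include hα hβ in
lemma big_case (k : Fin n) :
    ex (aF α β k) ≤ 4 * ex α * ex β + (1 / 4) * energy α β k := by
  have hp := poincare (fun s => √(aF α β k s))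
  have e1 : ex (fun s => √(aF α β k s) ^ 2) = ex (aF α β k) :=
    ex_congr fun s => Real.sq_sqrt (aF_nonneg hα hβ k s)
  rw [e1] at hp
  have h1 := ex_cs (fun s => √(α (update s k true))) (fun s => √(β (update s k false)))
  have e2 : ex (fun s => √(α (update s k true)) * √(β (update s k false))) =
      ex (fun s => √(aF α β k s)) :=
    ex_congr fun s => by unfold aF; rw [Real.sqrt_mul (hα _)]
  have e3 : ex (fun s => √(α (update s k true)) ^ 2) = ex (fun s => α (update s k true)) :=
    ex_congr fun s => Real.sq_sqrt (hα _)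
  have e4 : ex (fun s => √(β (update s k false)) ^ 2) = ex (fun s => β (update s k false)) :=
    ex_congr fun s => Real.sq_sqrt (hβ _)
  rw [e2, e3, e4] at h1
  have h2 := ex_update_le α hα k true
  have h3 := ex_update_le β hβ k false
  have h4 : 0 ≤ ex (fun s => β (update s k false)) := ex_nonneg fun s => hβ _
  have h5 : 0 ≤ ex α := ex_nonneg hα
  have h6 : ex (fun s => α (update s k true)) * ex (fun s => β (update s k false)) ≤
      (2 * ex α) * (2 * ex β) := mul_le_mul h2 h3 h4 (by linarith)
  unfold energy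
  nlinarith [hp, h1, h6]

include hα hβ h in
theorem cube_main :
    ∑ k ∈ I, ex (aF α β k) ≤ 4 * ex α * ex β + 6 * ∑ k ∈ I, energy α β k := by
  classical
  rcases I.eq_empty_or_nonempty with hI | hI
  · subst hI
    simp only [Finset.sum_empty, mul_zero, add_zero]
    have h5 : 0 ≤ ex α := ex_nonneg hα
    have h6 : 0 ≤ ex β := ex_nonneg hβ
    positivity
  · obtain ⟨k0, hk0, hmax⟩ := Finset.exists_max_image I (pF α β I) hI
    rw [← Finset.add_sum_erase I _ hk0, ← Finset.add_sum_erase I (fun k => energy α β k) hk0]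
    have h1 := big_case hα hβ (α := α) (β := β) k0
    have h2 : ∑ k ∈ I.erase k0, ex (aF α β k) ≤ ∑ k ∈ I.erase k0, 6 * energy α β k := by
      refine Finset.sum_le_sum fun k hk => ?_
      obtain ⟨hne, hkI⟩ := Finset.mem_erase.mp hk
      apply small_case hα hβ h I k
      have := p_add_p (α := α) (β := β) I hkI hk0 hne
      have := hmax k hkI
      linarith
    rw [← Finset.mul_sum] at h2
    have h3 := energy_nonneg (α := α) (β := β) k0
    linarith

end

end MP052029
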