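import Mathlib

/-!
Private-coin Arthur-Merlin protocols for set disjointness.
-/

namespace MP052029

/-- A private-coin Arthur-Merlin protocol for a pair of `n`-bit inputs: finite non-empty sets
of coins `R` (Alice) and `Q` (Bob) and `m` rectangles `A i × B i`, where `A i` is a set of pairs
(input, coin) of Alice and `B i` is a set of pairs (input, coin) of Bob. -/
structure Protocol (n : ℕ) where
  R : Type
  Q : Type
  [fintypeR : Fintype R]
  [fintypeQ : Fintype Q]
  [nonemptyR : Nonempty R]
  [nonemptyQ : Nonempty Q]
  m : ℕ
  A : Fin m → Set ((Fin n → Bool) × R)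
  B : Fin m → Set ((Fin n → Bool) × Q)

attribute [instance] Protocol.fintypeR Protocol.fintypeQ Protocol.nonemptyR Protocol.nonemptyQ

/-- `DISJ_n (x, y) = 1`: there is no `i` with `x i = y i = 1`. -/
def Disj {n : ℕ} (x y : Fin n → Bool) : Prop := ¬ ∃ i, x i = true ∧ y i = true

namespace Protocol

variable {n : ℕ} (P : Protocol n)

/-- The point `((x, r), (y, q))` lies in the rectangle `A i × B i`. -/
def Hit (x y : Fin n → Bool) (r : P.R) (q : P.Q) (i : Fin P.m) : Prop :=
  (x, r) ∈ P.A i ∧ (y, q) ∈ P.B i

/-- Expectation over the independent uniform coins `r` and `q`. -/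
noncomputable def avg (F : P.R → P.Q → ℝ) : ℝ :=
  (∑ r, ∑ q, F r q) / (Fintype.card P.R * Fintype.card P.Q)

open Classical in
/-- Probability that the point of `(x, y)` lies in some rectangle (acceptance probability). -/
noncomputable def accept (x y : Fin n → Bool) : ℝ :=
  P.avg fun r q => if ∃ i, P.Hit x y r q i then 1 else 0

/-- The protocol computes `DISJ_n`: it accepts every pair of disjoint sets with probability `1`
and every pair of intersecting sets with probability at most `1/2`. -/
def Computes : Prop :=
  ∀ x y : Fin n → Bool, (Disj x y → P.accept x y = 1) ∧ (¬ Disj x y → P.accept x y ≤ 1 / 2)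

/-- Over a pair of disjoint sets every point lies in at most one rectangle. -/
def Unambiguous : Prop :=
  ∀ x y : Fin n → Bool, Disj x y → ∀ (r : P.R) (q : P.Q) (i j : Fin P.m),
    P.Hit x y r q i → P.Hit x y r q j → i = j

/-- The rectangle `i` contains a point over some pair of disjoint sets. -/
def Useful (i : Fin P.m) : Prop :=
  ∃ (x y : Fin n → Bool) (r : P.R) (q : P.Q), Disj x y ∧ P.Hit x y r q i

/-- The number of useful rectangles that contain the point `((x, r), (y, q))`. -/
noncomputable def load (x y : Fin n → Bool) (r : P.R) (q : P.Q) : ℕ :=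
  {i : Fin P.m | P.Useful i ∧ P.Hit x y r q i}.ncard

/-- The expected number of ordered pairs of distinct useful rectangles that contain the random
point of `(x, y)`. -/
noncomputable def pairs (x y : Fin n → Bool) : ℝ :=
  P.avg fun r q => (P.load x y r q : ℝ) * ((P.load x y r q : ℝ) - 1)

/-- The cost `⌈log₂ m⌉`. -/
def cost : ℕ := Nat.clog 2 P.m

open Classical in
/-- Probability that the point of `(x, y)` lies in the rectangle `i`. -/
noncomputable def hitProb (x y : Fin n → Bool) (i : Fin P.m) : ℝ :=
  P.avg fun r q => if P.Hit x y r q i then 1 else 0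

/-- A zero-information protocol: unambiguous, and for every rectangle `i` the probability to
lie in `i` is the same for all pairs of disjoint sets. -/
def ZeroInformation : Prop :=
  P.Unambiguous ∧ ∀ (i : Fin P.m) (x y x' y' : Fin n → Bool), Disj x y → Disj x' y' →
    P.hitProb x y i = P.hitProb x' y' i

end Protocol

end MP052029
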