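import Pool.Agent.Lib.MP_052029_lc.Ctx

/-!
The inequality for one cross-intersecting rectangle.
-/

namespace MP052029

open Finset Function

variable {n : ℕ}

/-- mass of the rectangle on uniquely intersecting pairs (sum over the common element) -/
noncomputable def M1 (θ : ℝ) (f g : (Fin n → Bool) → ℝ) : ℝ :=
  Ec θ (fun c => ∑ k ∈ Iset c, ex (aF (al f c) (be g c) k))

/-- mass of the rectangle on the random pairs -/
noncomputable def P2 (θ : ℝ) (f g : (Fin n → Bool) → ℝ) : ℝ :=
  Ec θ (fun c => ex (al f c) * ex (be g c))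

/-- entropy term -/
noncomputable def EN (θ : ℝ) (f g : (Fin n → Bool) → ℝ) : ℝ :=
  Ec θ (fun c => ∑ k ∈ Iset c, ex (fun s => Real.negMulLog (aF (al f c) (be g c) k s)))

lemma sum_Iset (c : Fin n → Fin 3) (X : Fin n → ℝ) :
    ∑ k ∈ Iset c, X k = ∑ k, if c k = 2 then X k else 0 := by
  unfold Iset
  rw [Finset.sum_filter]

/-- auxiliary -/
noncomputable def S1 (f g : (Fin n → Bool) → ℝ) (k j : Fin n) (c : Fin n → Fin 3) : ℝ :=
  if c k = 2 then (if j ≠ k then ex (T1 f g c k j) else 0) else 0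

/-- auxiliary -/
noncomputable def S2 (f g : (Fin n → Bool) → ℝ) (k j : Fin n) (c : Fin n → Fin 3) : ℝ :=
  if c k = 2 then (if j ≠ k then ex (T2 f g c k j) else 0) else 0

lemma S1_ctx (f g : (Fin n → Bool) → ℝ) {k j : Fin n} (hjk : j ≠ k) (c : Fin n → Fin 3)
    (a : Fin 3) : S1 f g k j (update c j a) = S1 f g k j c := by
  unfold S1
  rw [update_of_ne hjk.symm]
  have : T1 f g (update c j a) k j = T1 f g c k j := funext fun s => T1_ctx f g c s k j a
  rw [this]

lemma S2_ctx (f g : (Fin n → Bool) → ℝ) {k j : Fin n} (hjk : j ≠ k) (c : Fin n → Fin 3)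
    (a : Fin 3) : S2 f g k j (update c j a) = S2 f g k j c := by
  unfold S2
  rw [update_of_ne hjk.symm]
  have : T2 f g (update c j a) k j = T2 f g c k j := funext fun s => T2_ctx f g c s k j a
  rw [this]

lemma S1_transfer {θ : ℝ} (h1 : θ < 1) (f g : (Fin n → Bool) → ℝ) (k j : Fin n) :
    Ec θ (fun c => if c j = 2 then S1 f g k j c else 0) =
      (2 * θ / (1 - θ)) * Ec θ (fun c => if c j = 0 then S1 f g k j c else 0) := by
  by_cases hjk : j = k
  · subst hjk
    have : ∀ c, S1 f g j j c = 0 := fun c => by unfold S1; simp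
    simp only [this, ite_self, Ec_const]
    simp
  · have h := transfer θ j (S1 f g k j) (fun c a => S1_ctx f g hjk c a) 2 0
    have e0 : wt θ 0 = (1 - θ) / 2 := by simp [wt]
    have e2 : wt θ 2 = θ := by simp [wt]
    rw [e0, e2] at h
    have h3 : (1 - θ) ≠ 0 := by linarith
    field_simp
    linarith

lemma S2_transfer {θ : ℝ} (h1 : θ < 1) (f g : (Fin n → Bool) → ℝ) (k j : Fin n) :
    Ec θ (fun c => if c j = 2 then S2 f g k j c else 0) =
      (2 * θ / (1 - θ)) * Ec θ (fun c => if c j = 1 then S2 f g k j c else 0) := by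
  by_cases hjk : j = k
  · subst hjk
    have : ∀ c, S2 f g j j c = 0 := fun c => by unfold S2; simp
    simp only [this, ite_self, Ec_const]
    simp
  · have h := transfer θ j (S2 f g k j) (fun c a => S2_ctx f g hjk c a) 2 1
    have e0 : wt θ 1 = (1 - θ) / 2 := by simp [wt]
    have e2 : wt θ 2 = θ := by simp [wt]
    rw [e0, e2] at h
    have h3 : (1 - θ) ≠ 0 := by linarith
    field_simp
    linarith

section

variable {f g : (Fin n → Bool) → ℝ} (hf : ∀ s, 0 ≤ f s) (hg : ∀ s, 0 ≤ g s)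
  (hf1 : ∀ s, f s ≤ 1) (hg1 : ∀ s, g s ≤ 1)

include hf hg hf1 hg1 in
lemma types_le (c : Fin n → Fin 3) :
    ∑ k, ∑ j, ((if c j = 0 then S1 f g k j c else 0) + (if c j = 1 then S2 f g k j c else 0)) ≤
      4 * ∑ k ∈ Iset c, ex (fun s => Real.negMulLog (aF (al f c) (be g c) k s)) := by
  rw [sum_Iset, Finset.mul_sum]
  refine Finset.sum_le_sum fun k _ => ?_
  by_cases hk : c k = 2
  · rw [if_pos hk]
    have e : ∀ j, ((if c j = 0 then S1 f g k j c else 0) +
        (if c j = 1 then S2 f g k j c else 0)) =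
        ex (fun s => (if c j = 0 then (if j ≠ k then T1 f g c k j s else 0) else 0) +
          (if c j = 1 then (if j ≠ k then T2 f g c k j s else 0) else 0)) := by
      intro j
      unfold S1 S2
      rw [ex_add]
      congr 1
      · split_ifs <;> simp [ex_const]
      · split_ifs <;> simp [ex_const]
    rw [Finset.sum_congr rfl fun j _ => e j, ← ex_sum, ← ex_mul_left]
    refine ex_mono fun s => ?_
    rw [Finset.sum_add_distrib]
    have h1 := sum_T1 hf hg hf1 c s hk
    have h2 := sum_T2 hf hg hg1 c s hk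
    unfold aF
    rw [Real.negMulLog_mul]
    linarith
  · rw [if_neg hk, mul_zero]
    refine Finset.sum_nonpos fun j _ => ?_
    unfold S1 S2
    simp [hk]

include hf hg hf1 hg1 in
theorem energy_avg {θ : ℝ} (h0 : 0 ≤ θ) (h1 : θ < 1) :
    Ec θ (fun c => ∑ k ∈ Iset c, energy (al f c) (be g c) k) ≤
      (16 * θ / (1 - θ)) * EN θ f g := by
  have step1 : Ec θ (fun c => ∑ k ∈ Iset c, energy (al f c) (be g c) k) ≤
      Ec θ (fun c => ∑ k, ∑ j, (2 * (if c j = 2 then S1 f g k j c else 0) +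
        2 * (if c j = 2 then S2 f g k j c else 0))) := by
    refine Ec_mono h0 h1.le fun c => ?_
    rw [sum_Iset]
    refine Finset.sum_le_sum fun k _ => ?_
    by_cases hk : c k = 2
    · rw [if_pos hk]
      refine (energy_le hf hg c hk).trans (le_of_eq ?_)
      refine Finset.sum_congr rfl fun j _ => ?_
      unfold S1 S2
      by_cases hj : c j = 2 <;> by_cases hjk : j = k <;> simp [hk, hj, hjk]
    · rw [if_neg hk]
      refine le_of_eq (Finset.sum_eq_zero fun j _ => ?_).symm
      unfold S1 S2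
      simp [hk]
  have step2 : Ec θ (fun c => ∑ k, ∑ j, (2 * (if c j = 2 then S1 f g k j c else 0) +
        2 * (if c j = 2 then S2 f g k j c else 0))) =
      (4 * θ / (1 - θ)) * Ec θ (fun c => ∑ k, ∑ j, ((if c j = 0 then S1 f g k j c else 0) +
        (if c j = 1 then S2 f g k j c else 0))) := by
    rw [Ec_sum, Ec_sum, Finset.mul_sum]
    refine Finset.sum_congr rfl fun k _ => ?_
    rw [Ec_sum, Ec_sum, Finset.mul_sum]
    refine Finset.sum_congr rfl fun j _ => ?_
    rw [Ec_add, Ec_add, Ec_mul_left, Ec_mul_left, S1_transfer h1, S2_transfer h1]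
    ring
  have h3 : 0 ≤ 4 * θ / (1 - θ) := div_nonneg (by linarith) (by linarith)
  have step3 := mul_le_mul_of_nonneg_left
    (Ec_mono h0 h1.le (types_le hf hg hf1 hg1)) h3
  rw [Ec_mul_left] at step3
  unfold EN
  calc _ ≤ _ := step1
    _ = _ := step2
    _ ≤ _ := step3
    _ = _ := by ring

end

lemma ex_mul_ex (F G : (Fin n → Bool) → ℝ) :
    ex F * ex G = ex (fun x => ex (fun y => F x * G y)) := by
  have : ∀ x, ex (fun y => F x * G y) = F x * ex G := fun x => ex_mul_left _ _
  rw [ex_congr this, ex_mul_right]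

lemma al_be_zero {f g : (Fin n → Bool) → ℝ}
    (h : ∀ x y : Fin n → Bool, (∀ i, ¬ (x i = true ∧ y i = true)) → f x * g y = 0)
    (c : Fin n → Fin 3) (s : Fin n → Bool) : al f c s * be g c s = 0 := by
  unfold al be
  rw [ex_mul_ex]
  have : ∀ x, ex (fun y => f (xin c s x) * g (yin c s y)) = 0 := by
    intro x
    have : ∀ y, f (xin c s x) * g (yin c s y) = 0 := by
      intro y
      apply h
      intro i
      unfold xin yin
      split_ifs <;> simp
    rw [ex_congr this, ex_const]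
  rw [ex_congr this, ex_const]

lemma negMulLog_le {z d : ℝ} (hz : 0 ≤ z) :
    Real.negMulLog z ≤ d * z + Real.exp (-(d + 1)) := by
  rcases eq_or_lt_of_le hz with h | h
  · rw [← h]; simp; positivity
  · unfold Real.negMulLog
    have h1 : Real.log (z * Real.exp (d + 1)) = Real.log z + (d + 1) := by
      rw [Real.log_mul h.ne' (Real.exp_pos _).ne', Real.log_exp]
    have h2 := Real.one_sub_inv_le_log_of_pos (mul_pos h (Real.exp_pos (d + 1)))
    rw [h1] at h2
    have h3 : z * (z * Real.exp (d + 1))⁻¹ = Real.exp (-(d + 1)) := by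
      rw [Real.exp_neg]
      field_simp
    have h4 := mul_le_mul_of_nonneg_left h2 hz
    rw [mul_sub, h3] at h4
    nlinarith [h4]

section

variable {f g : (Fin n → Bool) → ℝ} (hf : ∀ s, 0 ≤ f s) (hg : ∀ s, 0 ≤ g s)
  (hf1 : ∀ s, f s ≤ 1) (hg1 : ∀ s, g s ≤ 1)

include hf hg in
lemma EN_le {θ d : ℝ} (h0 : 0 ≤ θ) (h1 : θ ≤ 1) :
    EN θ f g ≤ d * M1 θ f g + Real.exp (-(d + 1)) * (θ * n) := by
  unfold EN M1
  rw [← Ec_card (n := n) θ, ← Ec_mul_left, ← Ec_mul_left, ← Ec_add]
  refine Ec_mono h0 h1 fun c => ?_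
  rw [mul_comm (Real.exp _), ← nsmul_eq_mul, ← Finset.sum_const, Finset.mul_sum,
    ← Finset.sum_add_distrib]
  refine Finset.sum_le_sum fun k _ => ?_
  rw [← ex_mul_left]
  have e := ex_const (n := n) (Real.exp (-(d + 1)))
  rw [← e, ← ex_add]
  refine ex_mono fun s => ?_
  exact negMulLog_le (aF_nonneg (fun s => ex_nonneg fun x => hf _)
    (fun s => ex_nonneg fun x => hg _) k s)

include hf hg hf1 hg1 in
/-- the inequality for one cross-intersecting rectangle -/
theorem rect_main (h : ∀ x y : Fin n → Bool, (∀ i, ¬ (x i = true ∧ y i = true)) → f x * g y = 0)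
    {θ d : ℝ} (h0 : 0 < θ) (h2 : θ ≤ 1 / 2) (hd : 384 * (θ * d) ≤ 1) (hd0 : 0 ≤ d) :
    M1 θ f g ≤ 8 * P2 θ f g + 384 * θ * (Real.exp (-(d + 1)) * (θ * n)) := by
  have hE := energy_avg hf hg hf1 hg1 h0.le (show θ < 1 by linarith)
  have hN := EN_le hf hg (d := d) h0.le (show θ ≤ 1 by linarith)
  have hM : M1 θ f g ≤ 4 * P2 θ f g +
      6 * Ec θ (fun c => ∑ k ∈ Iset c, energy (al f c) (be g c) k) := by
    unfold M1 P2
    rw [← Ec_mul_left, ← Ec_mul_left, ← Ec_add]
    refine Ec_mono h0.le (by linarith) fun c => ?_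
    have := cube_main (α := al f c) (β := be g c) (fun s => ex_nonneg fun x => hf _)
      (fun s => ex_nonneg fun x => hg _) (al_be_zero h c) (Iset c)
    linarith
  have hM0 : 0 ≤ M1 θ f g := Ec_nonneg h0.le (by linarith) fun c =>
    Finset.sum_nonneg fun k _ => ex_nonneg fun s => aF_nonneg
      (fun s => ex_nonneg fun x => hf _) (fun s => ex_nonneg fun x => hg _) k s
  have hc : 16 * θ / (1 - θ) ≤ 32 * θ := by
    rw [div_le_iff₀ (by linarith)]
    nlinarith
  have hc0 : 0 ≤ 16 * θ / (1 - θ) := div_nonneg (by linarith) (by linarith)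
  have hR0 : 0 ≤ d * M1 θ f g + Real.exp (-(d + 1)) * (θ * n) := by positivity
  have h5 : (16 * θ / (1 - θ)) * EN θ f g ≤
      32 * θ * (d * M1 θ f g + Real.exp (-(d + 1)) * (θ * n)) :=
    (mul_le_mul_of_nonneg_left hN hc0).trans (mul_le_mul_of_nonneg_right hc hR0)
  have h6 : 384 * (θ * d) * M1 θ f g ≤ 1 * M1 θ f g := mul_le_mul_of_nonneg_right hd hM0
  nlinarith [hM, hE, h5, h6]

end

end MP052029
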