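import Pool.Agent.Lib.MP_052029_lc.Bridge

/-!
Zero-information protocols: the expected number of useful rectangles through the random point is
`1` on every input, also on intersecting pairs. Hence bounded ambiguity is a bound on `pairs`.
-/

namespace MP052029

open Finset

namespace Protocol

variable {n : ℕ} (P : Protocol n)

open Classical in
/-- Alice's probability to lie in her side of rectangle `i` -/
noncomputable def pa (i : Fin P.m) (x : Fin n → Bool) : ℝ :=
  (∑ r : P.R, if (x, r) ∈ P.A i then (1 : ℝ) else 0) / Fintype.card P.R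

open Classical in
/-- Bob's probability to lie in his side of rectangle `i` -/
noncomputable def pb (i : Fin P.m) (y : Fin n → Bool) : ℝ :=
  (∑ q : P.Q, if (y, q) ∈ P.B i then (1 : ℝ) else 0) / Fintype.card P.Q

lemma hitProb_eq (x y : Fin n → Bool) (i : Fin P.m) : P.hitProb x y i = P.pa i x * P.pb i y := by
  classical
  unfold hitProb avg pa pb Hit
  rw [div_mul_div_comm, Finset.sum_mul_sum]
  congr 1
  refine Finset.sum_congr rfl fun r _ => Finset.sum_congr rfl fun q _ => ?_
  by_cases h1 : (x, r) ∈ P.A i <;> by_cases h2 : (y, q) ∈ P.B i <;> simp [h1, h2]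

lemma hitProb_pos {x y : Fin n → Bool} {r : P.R} {q : P.Q} {i : Fin P.m}
    (h : P.Hit x y r q i) : 0 < P.hitProb x y i := by
  classical
  have hp := P.card_pos
  unfold hitProb avg
  refine div_pos ?_ hp
  have h1 : ∀ r ∈ (Finset.univ : Finset P.R),
      0 ≤ ∑ q : P.Q, (if P.Hit x y r q i then (1 : ℝ) else 0) := fun r _ =>
    Finset.sum_nonneg fun q _ => by split_ifs <;> norm_num
  refine Finset.sum_pos' h1 ⟨r, Finset.mem_univ _, ?_⟩
  refine Finset.sum_pos' (fun q _ => by dsimp only; split_ifs <;> norm_num)
    ⟨q, Finset.mem_univ _, ?_⟩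
  dsimp only
  rw [if_pos h]
  norm_num

variable {P}

lemma hitProb_const (hz : P.ZeroInformation) {i : Fin P.m} (hi : P.Useful i)
    (x y : Fin n → Bool) : P.hitProb x y i = P.hitProb (fun _ => false) (fun _ => false) i := by
  set o : Fin n → Bool := fun _ => false with ho
  have d1 : ∀ x, Disj x o := fun x => by rintro ⟨i, _, h⟩; simp [ho] at h
  have d2 : ∀ y, Disj o y := fun x => by rintro ⟨i, h, _⟩; simp [ho] at h
  obtain ⟨x0, y0, r, q, hd, hh⟩ := hi
  have hpos : 0 < P.hitProb o o i := by
    rw [← hz.2 i x0 y0 o o hd (d1 o)]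
    exact P.hitProb_pos hh
  have e1 := hz.2 i x o o o (d1 x) (d1 o)
  have e2 := hz.2 i o y o o (d2 y) (d1 o)
  rw [hitProb_eq, hitProb_eq] at e1 e2
  rw [hitProb_eq] at hpos
  rw [hitProb_eq, hitProb_eq]
  have ha : P.pa i o ≠ 0 := by
    intro h; rw [h, zero_mul] at hpos; exact lt_irrefl _ hpos
  have hb : P.pb i o ≠ 0 := by
    intro h; rw [h, mul_zero] at hpos; exact lt_irrefl _ hpos
  rw [mul_right_cancel₀ hb e1, mul_left_cancel₀ ha e2]

lemma avg_load (x y : Fin n → Bool) : P.avg (fun r q => (P.load x y r q : ℝ)) =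
    ∑ i, open Classical in if P.Useful i then P.hitProb x y i else 0 := by
  classical
  unfold hitProb avg
  have h : ∀ r q, (P.load x y r q : ℝ) =
      ∑ i, if P.Useful i then (if P.Hit x y r q i then (1 : ℝ) else 0) else 0 := by
    intro r q
    rw [load_eq, Finset.card_filter]
    push_cast
    refine Finset.sum_congr rfl fun i _ => ?_
    by_cases h1 : P.Useful i <;> by_cases h2 : P.Hit x y r q i <;> simp [h1, h2]
  simp only [h]
  have e : ∑ r : P.R, ∑ q : P.Q, ∑ i, (if P.Useful i then
      (if P.Hit x y r q i then (1 : ℝ) else 0) else 0) =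
      ∑ i, if P.Useful i then ∑ r : P.R, ∑ q : P.Q,
        (if P.Hit x y r q i then (1 : ℝ) else 0) else 0 := by
    rw [Finset.sum_congr rfl fun r _ => Finset.sum_comm, Finset.sum_comm]
    refine Finset.sum_congr rfl fun i _ => ?_
    by_cases h1 : P.Useful i <;> simp [h1]
  rw [e, Finset.sum_div]
  refine Finset.sum_congr rfl fun i _ => ?_
  by_cases h1 : P.Useful i <;> simp [h1]

/-- On every input, disjoint or not, the expected number of useful rectangles is `1`. -/
theorem avg_load_eq_one (hc : P.Computes) (hz : P.ZeroInformation) (x y : Fin n → Bool) :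
    P.avg (fun r q => (P.load x y r q : ℝ)) = 1 := by
  classical
  set o : Fin n → Bool := fun _ => false with ho
  have h0 : P.avg (fun r q => (P.load o o r q : ℝ)) = 1 := by
    have hd : Disj o o := by rintro ⟨i, _, h⟩; simp [ho] at h
    have : (fun r q => (P.load o o r q : ℝ)) = fun _ _ => (1 : ℝ) := by
      funext r q
      rw [load_disj hc hz.1 hd]; simp
    rw [this]
    have hp := P.card_pos
    unfold avg
    simp only [Finset.sum_const, Finset.card_univ, nsmul_eq_mul, mul_one]
    exact div_self hp.ne'
  rw [← h0, avg_load, avg_load]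
  refine Finset.sum_congr rfl fun i _ => ?_
  by_cases h1 : P.Useful i
  · rw [if_pos h1, if_pos h1, hitProb_const hz h1, hitProb_const hz h1]
  · rw [if_neg h1, if_neg h1]

/-- Zero-information protocols in which no point lies in more than `b` useful rectangles. -/
theorem zero_information_ambiguity (hc : P.Computes) (hz : P.ZeroInformation) {b : ℕ}
    (hb : 2 ≤ b) (hN : ∀ x y r q, P.load x y r q ≤ b) :
    (n : ℝ) ≤ 12000 * (b - 1) * P.cost := by
  have hb2 : (2 : ℝ) ≤ b := by exact_mod_cast hb
  refine tradeoff hc hz.1 (by linarith) fun x y => ?_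
  have h1 := avg_load_eq_one hc hz x y
  have hp := P.card_pos
  have : P.pairs x y ≤ (b - 1) * P.avg (fun r q => (P.load x y r q : ℝ)) := by
    unfold pairs avg
    rw [← mul_div_assoc, Finset.mul_sum]
    refine div_le_div_of_nonneg_right ?_ hp.le
    refine Finset.sum_le_sum fun r _ => ?_
    rw [Finset.mul_sum]
    refine Finset.sum_le_sum fun q _ => ?_
    have h2 : (P.load x y r q : ℝ) ≤ b := by exact_mod_cast hN x y r q
    have h3 : (0 : ℝ) ≤ P.load x y r q := Nat.cast_nonneg _
    nlinarith
  rw [h1, mul_one] at this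
  exact this

end Protocol

end MP052029
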